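import Pool.Agent.FBR.Defs

/-!
# Extension from the boundary circles to the annulus (package FBR5)
-/

set_option autoImplicit false

namespace Pool.Agent.FBR

open Filter Topology Set

/-- the open annulus -/
def ann (a b : ℝ) : Set ℂ := {z | a < ‖z‖ ∧ ‖z‖ < b}

private theorem isOpen_ann (a b : ℝ) : IsOpen (ann a b) :=
  (isOpen_lt continuous_const continuous_norm).inter (isOpen_lt continuous_norm continuous_const)

private theorem closure_ann_sub {a b : ℝ} {z : ℂ} (h : z ∈ closure (ann a b)) :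
    a ≤ ‖z‖ ∧ ‖z‖ ≤ b := by
  have h1 : IsClosed {z : ℂ | a ≤ ‖z‖ ∧ ‖z‖ ≤ b} :=
    (isClosed_le continuous_const continuous_norm).inter
      (isClosed_le continuous_norm continuous_const)
  have h2 : ann a b ⊆ {z : ℂ | a ≤ ‖z‖ ∧ ‖z‖ ≤ b} := fun z hz => ⟨hz.1.le, hz.2.le⟩
  exact closure_minimal h2 h1 h

/-- Proof. The closure of the annulus is contained in `{a ≤ ‖z‖ ≤ b}`, which is closed. -/
theorem frontier_ann {a b : ℝ} {z : ℂ} (h : z ∈ frontier (ann a b)) : ‖z‖ = a ∨ ‖z‖ = b := by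
  rw [(isOpen_ann a b).frontier_eq] at h
  obtain ⟨h1, h2⟩ := closure_ann_sub h.1
  by_contra h3
  push Not at h3
  exact h.2 ⟨lt_of_le_of_ne h1 (Ne.symm h3.1), lt_of_le_of_ne h2 h3.2⟩

/-- Proof. Points of `{a ≤ ‖z‖ ≤ b}` are limits of points of the annulus (`0 < a < b`): scale `z`
by real numbers near `1`. -/
theorem mem_closure_ann {a b : ℝ} (ha : 0 < a) (hab : a < b) {z : ℂ} (h : a ≤ ‖z‖) (h' : ‖z‖ ≤ b) :
    z ∈ closure (ann a b) := by
  have hz : 0 < ‖z‖ := ha.trans_le h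
  obtain ⟨c, hc⟩ : ∃ c : ℝ, c = (a + b) / 2 / ‖z‖ := ⟨_, rfl⟩
  have hcz : c * ‖z‖ = (a + b) / 2 := by
    rw [hc]
    field_simp
  have hc0 : 0 < c := by
    rw [hc]
    exact div_pos (by linarith) hz
  have h1 : Tendsto (fun t : ℝ => (((1 - t) + t * c : ℝ) : ℂ) * z) (𝓝[>] 0) (𝓝 z) := by
    have h2 : Continuous fun t : ℝ => (((1 - t) + t * c : ℝ) : ℂ) * z := by fun_prop
    have h3 := h2.tendsto 0
    have e : (((1 - (0 : ℝ)) + 0 * c : ℝ) : ℂ) * z = z := by simp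
    rw [e] at h3
    exact h3.mono_left nhdsWithin_le_nhds
  refine mem_closure_of_tendsto h1 ?_
  filter_upwards [Ioo_mem_nhdsGT (zero_lt_one : (0 : ℝ) < 1)] with t ht
  have h4 : 0 < (1 - t) + t * c := by
    have := mul_pos ht.1 hc0
    have := ht.2
    linarith
  have h5 : ‖(((1 - t) + t * c : ℝ) : ℂ) * z‖ = (1 - t) * ‖z‖ + t * ((a + b) / 2) := by
    rw [norm_mul, Complex.norm_real, Real.norm_of_nonneg h4.le, ← hcz]
    ring
  have h6 := ht.1
  have h7 := ht.2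
  refine ⟨?_, ?_⟩
  · rw [h5]
    nlinarith
  · rw [h5]
    nlinarith

private noncomputable def eL (n : ℕ) : (Fin n → ℂ) ≃L[ℂ] EuclideanSpace ℂ (Fin n) :=
  (PiLp.continuousLinearEquiv 2 ℂ (fun _ : Fin n => ℂ)).symm

private theorem eL_sq {n : ℕ} (x : Fin n → ℂ) : ‖eL n x‖ ^ 2 = ∑ i, ‖x i‖ ^ 2 := by
  rw [EuclideanSpace.norm_sq_eq]
  rfl

private theorem mem_cball_iff {n : ℕ} {ρ : ℝ} (hρ : 0 ≤ ρ) {x : Fin n → ℂ} :
    x ∈ cball n ρ ↔ ‖eL n x‖ ≤ ρ := by
  have h1 : x ∈ cball n ρ ↔ ∑ i, ‖x i‖ ^ 2 ≤ ρ ^ 2 := Iff.rfl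
  rw [h1, ← eL_sq]
  exact ⟨fun h => le_of_sq_le_sq h hρ, fun h => pow_le_pow_left₀ (norm_nonneg _) h 2⟩

private theorem isCompact_cball {n : ℕ} {ρ : ℝ} (hρ : 0 ≤ ρ) : IsCompact (cball n ρ) := by
  have h1 : cball n ρ = (eL n).symm '' Metric.closedBall 0 ρ := by
    ext x
    rw [mem_cball_iff hρ]
    constructor
    · intro h
      refine ⟨eL n x, ?_, (eL n).symm_apply_apply x⟩
      rw [mem_closedBall_zero_iff]
      exact h
    · rintro ⟨y, hy, rfl⟩
      rw [mem_closedBall_zero_iff] at hy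
      rw [(eL n).apply_symm_apply]
      exact hy
  rw [h1]
  exact (isCompact_closedBall 0 ρ).image (eL n).symm.continuous

/-- **Extension.** If `w` is a map from the two boundary circles to the ball of radius `ρ` which is
a uniform limit of maps which are holomorphic on the annulus, then `Ψ` of the ball of radius `ρ`
contains `j` of the annulus, where `Ψ ∘ w = j` on the circles.

Proof. Let `T k` be the maps for `ε = 1 / (k + 1)`. On the closed annulus
`‖T k z - T l z‖ ≤ 1 / (k + 1) + 1 / (l + 1)` by the maximum modulus principle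
(`Complex.norm_le_of_forall_mem_frontier_norm_le`, the annulus is bounded). So `T k` converges
uniformly on the closed annulus (`UniformCauchySeqOn`, completeness) to a map `W`, continuous on
the closure and holomorphic on the annulus (`TendstoUniformlyOn.continuousOn`,
`TendstoLocallyUniformlyOn.differentiableOn`): `DiffContOnCl ℂ W (ann a b)`; `W = w` on the
circles.
(1) `W z ∈ cball n ρ` for `z` in the closed annulus: for `c : Fin n → ℂ` the scalar function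
`∑ i, c i * W z i` is bounded by `√(∑ ‖c i‖ ^ 2) * ρ` on the circles (Cauchy-Schwarz), hence on the
closed annulus; put `c i = conj (W z i)`: `S ≤ √S * ρ`, `S = ∑ i, ‖W z i‖ ^ 2`, so `S ≤ ρ ^ 2`.
(2) `z ↦ Ψ (W z) - j z` is `DiffContOnCl` on the annulus and vanishes on the circles, so it
vanishes (maximum modulus principle again). -/
theorem annulus_ext {n : ℕ} {a b ρ r : ℝ} (ha : 0 < a) (hab : a < b) (hρ : 0 ≤ ρ) (hr : ρ < r)
    {Ψ : (Fin n → ℂ) → (Fin n → ℂ)} (hΨ : DifferentiableOn ℂ Ψ (oball n r))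
    {j : ℂ → (Fin n → ℂ)} (hj : DifferentiableOn ℂ j {z | z ≠ 0}) {w : ℂ → (Fin n → ℂ)}
    (hw : ∀ z : ℂ, ‖z‖ = a ∨ ‖z‖ = b → w z ∈ cball n ρ ∧ Ψ (w z) = j z)
    (happ : ∀ ε : ℝ, 0 < ε → ∃ T : ℂ → (Fin n → ℂ), DiffContOnCl ℂ T (ann a b) ∧
      ∀ z : ℂ, ‖z‖ = a ∨ ‖z‖ = b → ‖T z - w z‖ ≤ ε) {z : ℂ} (hz : a ≤ ‖z‖) (hz' : ‖z‖ ≤ b) :
    ∃ x ∈ cball n ρ, Ψ x = j z := by
  have hbd : Bornology.IsBounded (ann a b) :=
    (Metric.isBounded_closedBall (x := (0 : ℂ)) (r := b)).subset fun z hz => by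
      rw [mem_closedBall_zero_iff]
      exact hz.2.le
  obtain ⟨M, hM0, hM⟩ : ∃ M : ℝ, 0 ≤ M ∧ ∀ x : Fin n → ℂ, ‖eL n x‖ ≤ M * ‖x‖ :=
    ⟨‖((eL n : (Fin n → ℂ) →L[ℂ] EuclideanSpace ℂ (Fin n)))‖, norm_nonneg _,
      fun x => (eL n : (Fin n → ℂ) →L[ℂ] EuclideanSpace ℂ (Fin n)).le_opNorm x⟩
  have hε : ∀ k : ℕ, (0 : ℝ) < 1 / ((k : ℝ) + 1) := fun k => by positivity
  choose T hT1 hT2 using fun k : ℕ => happ (1 / ((k : ℝ) + 1)) (hε k)
  -- the bound of the euclidean norm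
  have hbound : ∀ (k : ℕ) (z : ℂ), z ∈ closure (ann a b) →
      ‖eL n (T k z)‖ ≤ ρ + M * (1 / ((k : ℝ) + 1)) := by
    intro k z hz
    have h1 : DiffContOnCl ℂ (eL n ∘ T k) (ann a b) :=
      (eL n).differentiable.comp_diffContOnCl (hT1 k)
    refine Complex.norm_le_of_forall_mem_frontier_norm_le hbd h1 (fun u hu => ?_) hz
    have h2 := frontier_ann hu
    have h3 := (mem_cball_iff hρ).mp (hw u h2).1
    have h4 := hT2 k u h2
    have h5 : eL n (T k u) = eL n (w u) + eL n (T k u - w u) := by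
      rw [← map_add, add_sub_cancel]
    calc ‖(eL n ∘ T k) u‖ = ‖eL n (w u) + eL n (T k u - w u)‖ := by rw [← h5]; rfl
      _ ≤ ‖eL n (w u)‖ + ‖eL n (T k u - w u)‖ := norm_add_le _ _
      _ ≤ ρ + M * (1 / ((k : ℝ) + 1)) :=
        add_le_add h3 ((hM _).trans (mul_le_mul_of_nonneg_left h4 hM0))
  have hlim : Tendsto (fun k : ℕ => ρ + M * (1 / ((k : ℝ) + 1))) atTop (𝓝 ρ) := by
    have h1 := (tendsto_one_div_add_atTop_nhds_zero_nat (𝕜 := ℝ)).const_mul M
    have h2 := h1.const_add ρ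
    rw [mul_zero, add_zero] at h2
    exact h2
  obtain ⟨ρ', h1ρ', h2ρ'⟩ := exists_between hr
  have hρ' : 0 ≤ ρ' := hρ.trans h1ρ'.le
  have hKsub : cball n ρ' ⊆ oball n r := by
    intro x hx
    have h1 : ∑ i, ‖x i‖ ^ 2 ≤ ρ' ^ 2 := hx
    have h2 : ρ' ^ 2 < r ^ 2 := pow_lt_pow_left₀ h2ρ' hρ' two_ne_zero
    exact h1.trans_lt h2
  have hKc : IsCompact (cball n ρ') := isCompact_cball hρ'
  have hΨc : ContinuousOn Ψ (cball n ρ') := hΨ.continuousOn.mono hKsub
  have huc := hKc.uniformContinuousOn_of_continuous hΨc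
  have hev : ∀ᶠ k : ℕ in atTop, ρ + M * (1 / ((k : ℝ) + 1)) ≤ ρ' :=
    (hlim.eventually (gt_mem_nhds h1ρ')).mono fun k hk => hk.le
  have hmem : ∀ᶠ k : ℕ in atTop, ∀ u ∈ closure (ann a b), T k u ∈ cball n ρ' := by
    filter_upwards [hev] with k hk u hu
    exact (mem_cball_iff hρ').mpr ((hbound k u hu).trans hk)
  -- the values of `Ψ`
  have hval : ∀ η : ℝ, 0 < η → ∀ᶠ k : ℕ in atTop, ‖Ψ (T k z) - j z‖ ≤ η := by
    intro η hη
    obtain ⟨δ, hδ, hδ2⟩ := Metric.uniformContinuousOn_iff.mp huc η hη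
    have h1 : ∀ᶠ k : ℕ in atTop, 1 / ((k : ℝ) + 1) < δ :=
      (tendsto_one_div_add_atTop_nhds_zero_nat (𝕜 := ℝ)).eventually (gt_mem_nhds hδ)
    filter_upwards [h1, hmem] with k hk hk2
    have h2 : DiffContOnCl ℂ (fun u => Ψ (T k u) - j u) (ann a b) := by
      have h3 : MapsTo (T k) (closure (ann a b)) (oball n r) := fun u hu => hKsub (hk2 u hu)
      have h4 : ∀ u ∈ closure (ann a b), u ∈ {z : ℂ | z ≠ 0} := by
        intro u hu hu0
        have h5 := (closure_ann_sub hu).1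
        rw [hu0, norm_zero] at h5
        linarith
      refine DiffContOnCl.sub (𝕜 := ℂ) ⟨?_, ?_⟩ ⟨?_, ?_⟩
      · exact hΨ.comp (hT1 k).differentiableOn fun u hu => h3 (subset_closure hu)
      · exact hΨ.continuousOn.comp (hT1 k).continuousOn h3
      · exact hj.mono fun u hu => h4 u (subset_closure hu)
      · exact hj.continuousOn.mono h4
    refine Complex.norm_le_of_forall_mem_frontier_norm_le hbd h2 (fun u hu => ?_)
      (mem_closure_ann ha hab hz hz')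
    have h5 := frontier_ann hu
    obtain ⟨h6, h7⟩ := hw u h5
    have h8 : w u ∈ cball n ρ' :=
      (mem_cball_iff hρ').mpr (((mem_cball_iff hρ).mp h6).trans h1ρ'.le)
    have h9 : T k u ∈ cball n ρ' := hk2 u (frontier_subset_closure hu)
    have h10 := hδ2 (T k u) h9 (w u) h8 (by
      rw [dist_eq_norm]
      exact (hT2 k u h5).trans_lt hk)
    rw [dist_eq_norm, h7] at h10
    exact h10.le
  obtain ⟨N, hN⟩ := eventually_atTop.mp hmem
  have hzc := mem_closure_ann ha hab hz hz'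
  obtain ⟨x, hx, φ, hφ, hφ2⟩ := hKc.tendsto_subseq (x := fun k => T (k + N) z)
    fun k => hN (k + N) (Nat.le_add_left N k) z hzc
  have hφN : Tendsto (fun k => φ k + N) atTop atTop :=
    (tendsto_add_atTop_nat N).comp hφ.tendsto_atTop
  refine ⟨x, ?_, ?_⟩
  · rw [mem_cball_iff hρ]
    have h1 : Tendsto (fun k => ‖eL n (T (φ k + N) z)‖) atTop (𝓝 ‖eL n x‖) :=
      (((eL n).continuous.norm).tendsto x).comp hφ2
    exact le_of_tendsto_of_tendsto' h1 (hlim.comp hφN) fun k => hbound (φ k + N) z hzc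
  · have h1 : Tendsto (fun k => Ψ (T (φ k + N) z)) atTop (𝓝 (Ψ x)) := by
      have h2 : Tendsto (fun k => T (φ k + N) z) atTop (𝓝[cball n ρ'] x) :=
        tendsto_nhdsWithin_iff.mpr ⟨hφ2, Eventually.of_forall fun k =>
          hN (φ k + N) (Nat.le_add_left N _) z hzc⟩
      exact (hΨc x hx).tendsto.comp h2
    have h3 : ∀ η : ℝ, 0 < η → ‖Ψ x - j z‖ ≤ η := by
      intro η hη
      have h4 : Tendsto (fun k => ‖Ψ (T (φ k + N) z) - j z‖) atTop (𝓝 ‖Ψ x - j z‖) :=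
        (h1.sub_const (j z)).norm
      exact le_of_tendsto h4 (hφN.eventually (hval η hη))
    have h5 : ‖Ψ x - j z‖ ≤ 0 := le_of_forall_pos_le_add fun η hη => by
      rw [zero_add]
      exact h3 η hη
    exact sub_eq_zero.mp (norm_le_zero_iff.mp h5)

end Pool.Agent.FBR
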