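import Pool.Agent.FBR.Defs

/-!
# The fibre and Laurent polynomials (package FBR7)
-/

set_option autoImplicit false

namespace Pool.Agent.FBR

open Complex Set

private lemma io_zero (m : ℕ) (z : ℂ) : io m z 0 = z := by
  unfold io
  rw [if_pos rfl]

private lemma io_one (m : ℕ) (z : ℂ) : io m z 1 = vs / z := by
  unfold io
  rw [if_neg (by simp), if_pos rfl]

private lemma io_other (m : ℕ) (z : ℂ) (i : Fin (m + 2)) (h0 : i ≠ 0) (h1 : i ≠ 1) :
    io m z i = 0 := by
  unfold io
  rw [if_neg h0, if_neg h1]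

/-- Proof. `differentiableOn_pi`; the coordinates are `z`, `vs / z` and `0`. -/
theorem io_diff (m : ℕ) : DifferentiableOn ℂ (io m) {z | z ≠ 0} := by
  rw [differentiableOn_pi]
  intro i
  by_cases h0 : i = 0
  · subst h0
    simp only [io_zero]
    exact differentiableOn_id
  · by_cases h1 : i = 1
    · subst h1
      simp only [io_one]
      exact (differentiableOn_const vs).div differentiableOn_id fun z hz => hz
    · simp only [io_other m _ i h0 h1]
      exact differentiableOn_const 0

/-- Proof. The product of the first two coordinates of `io m z` is `z * (vs / z) = vs`. -/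
theorem io_prod (m : ℕ) {z : ℂ} (hz : z ≠ 0) : io m z 0 * io m z 1 = vs := by
  rw [io_zero, io_one, mul_div_cancel₀ _ hz]

/-- Proof. A polynomial is differentiable (`MvPolynomial` induction, or
`AnalyticOnNhd`-lemmas), composed with `io_diff`. -/
theorem eval_io_diff (m : ℕ) (p : MvPolynomial (Fin (m + 2)) ℂ) :
    DifferentiableOn ℂ (fun z => MvPolynomial.eval (io m z) p) {z | z ≠ 0} := by
  induction p using MvPolynomial.induction_on with
  | C a =>
    simp only [MvPolynomial.eval_C]
    exact differentiableOn_const a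
  | add p q hp hq =>
    simp only [map_add]
    exact hp.add hq
  | mul_X p i hp =>
    simp only [map_mul, MvPolynomial.eval_X]
    exact hp.mul (differentiableOn_pi.1 (io_diff m) i)

/-- A polynomial restricted to the fibre is a Laurent polynomial.

Proof. `MvPolynomial.induction_on`: constants `N = 0`, `P = C a`; the sum of `(N₁, P₁)` and
`(N₂, P₂)`: `N = N₁ + N₂`, `P = P₁ * X ^ N₂ + P₂ * X ^ N₁`; the product of `(N, P)` with `X i`:
`i = 0`: `(N, P * X)`; `i = 1`: `(N + 1, C vs * P)`; other `i`: `(0, 0)`. -/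
theorem laurent (m : ℕ) (q : MvPolynomial (Fin (m + 2)) ℂ) :
    ∃ (N : ℕ) (P : Polynomial ℂ), ∀ z : ℂ, z ≠ 0 →
      MvPolynomial.eval (io m z) q * z ^ N = P.eval z := by
  induction q using MvPolynomial.induction_on with
  | C a =>
    refine ⟨0, Polynomial.C a, fun z _ => ?_⟩
    rw [MvPolynomial.eval_C, pow_zero, mul_one, Polynomial.eval_C]
  | add p q hp hq =>
    obtain ⟨N₁, P₁, h1⟩ := hp
    obtain ⟨N₂, P₂, h2⟩ := hq
    refine ⟨N₁ + N₂, P₁ * Polynomial.X ^ N₂ + P₂ * Polynomial.X ^ N₁, fun z hz => ?_⟩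
    rw [map_add, Polynomial.eval_add, Polynomial.eval_mul, Polynomial.eval_mul,
      Polynomial.eval_pow, Polynomial.eval_pow, Polynomial.eval_X, ← h1 z hz, ← h2 z hz]
    ring
  | mul_X p i hp =>
    obtain ⟨N, P, h⟩ := hp
    by_cases h0 : i = 0
    · subst h0
      refine ⟨N, P * Polynomial.X, fun z hz => ?_⟩
      rw [map_mul, MvPolynomial.eval_X, io_zero, Polynomial.eval_mul, Polynomial.eval_X, ← h z hz]
      ring
    · by_cases h1 : i = 1
      · subst h1
        refine ⟨N + 1, Polynomial.C vs * P, fun z hz => ?_⟩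
        rw [map_mul, MvPolynomial.eval_X, io_one, Polynomial.eval_mul, Polynomial.eval_C,
          ← h z hz]
        field_simp
        ring
      · refine ⟨0, 0, fun z _ => ?_⟩
        rw [map_mul, MvPolynomial.eval_X, io_other m z i h0 h1, mul_zero, zero_mul,
          Polynomial.eval_zero]

/-- Proof. `{z | a ≤ ‖z‖ ≤ b}` is closed and bounded. -/
theorem isCompact_circles (a b : ℝ) : IsCompact {z : ℂ | ‖z‖ = a ∨ ‖z‖ = b} := by
  have h1 : {z : ℂ | ‖z‖ = a ∨ ‖z‖ = b} = Metric.sphere 0 a ∪ Metric.sphere 0 b := by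
    ext z
    simp
  rw [h1]
  exact (isCompact_sphere 0 a).union (isCompact_sphere 0 b)

end Pool.Agent.FBR
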