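import Pool.Agent.FBR.Defs

/-!
# Balls and continuous lifts (package FBR8)
-/

set_option autoImplicit false

namespace Pool.Agent.FBR

open Filter Topology Set

/-- Proof. Closed (a continuous function) and bounded (`‖z i‖ ^ 2 ≤ ρ ^ 2`, `pi_norm_le_iff`). -/
theorem isCompact_cball (n : ℕ) (ρ : ℝ) : IsCompact (cball n ρ) := by
  refine Metric.isCompact_of_isClosed_isBounded ?_ ?_
  · exact isClosed_le (by fun_prop) continuous_const
  · refine (Metric.isBounded_closedBall (x := (0 : Fin n → ℂ)) (r := |ρ|)).subset fun z hz => ?_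
    rw [mem_closedBall_zero_iff, pi_norm_le_iff_of_nonneg (abs_nonneg ρ)]
    intro i
    have h1 : ‖z i‖ ^ 2 ≤ ∑ j, ‖z j‖ ^ 2 :=
      Finset.single_le_sum (f := fun j => ‖z j‖ ^ 2) (fun j _ => sq_nonneg _)
        (Finset.mem_univ i)
    have h2 : ‖z i‖ ^ 2 ≤ ρ ^ 2 := h1.trans hz
    have h3 := sq_le_sq.1 h2
    rwa [abs_of_nonneg (norm_nonneg _)] at h3

theorem isOpen_oball (n : ℕ) (ρ : ℝ) : IsOpen (oball n ρ) := by
  exact isOpen_lt (by fun_prop) continuous_const

theorem cball_subset_oball {n : ℕ} {ρ r : ℝ} (h0 : 0 ≤ ρ) (h : ρ < r) :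
    cball n ρ ⊆ oball n r := by
  intro z hz
  exact lt_of_le_of_lt hz (pow_lt_pow_left₀ h h0 two_ne_zero)

/-- A small perturbation of a point of `cball n ρ` is in `cball n r`, `0 ≤ ρ < r`.

Proof. Minkowski: with the euclidean norm (`EuclideanSpace.norm_eq`, or
`Real.Lp_add_le`/`Real.inner_mul_le_norm_mul_norm`) `‖w‖₂ ≤ ‖x‖₂ + ‖w - x‖₂ ≤ ρ + √n δ`; take
`δ = (r - ρ) / (√n + 1)`. Or by compactness: `cball n ρ` is a compact subset of the open set
`oball n r` (`IsCompact.exists_cthickening_subset_open`), and `oball n r ⊆ cball n r`. -/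
theorem exists_thick {n : ℕ} {ρ r : ℝ} (h0 : 0 ≤ ρ) (h : ρ < r) :
    ∃ δ > 0, ∀ x ∈ cball n ρ, ∀ w : Fin n → ℂ, ‖w - x‖ ≤ δ → w ∈ cball n r := by
  obtain ⟨δ, hδ, hsub⟩ := (isCompact_cball n ρ).exists_cthickening_subset_open
    (isOpen_oball n r) (cball_subset_oball h0 h)
  refine ⟨δ, hδ, fun x hx w hw => ?_⟩
  have h1 : w ∈ oball n r := by
    refine hsub (Metric.mem_cthickening_of_dist_le w x δ _ hx ?_)
    rw [dist_eq_norm]
    exact hw
  exact le_of_lt (show ∑ i, ‖w i‖ ^ 2 < r ^ 2 from h1)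

/-- **Continuous lifts.** `j` is continuous on `S`, `Φ` is continuous and injective on the compact
set `K`, and `Φ (w z) = j z`, `w z ∈ K` for `z ∈ S`: then `w` is continuous on `S`.

Proof. `Φ` restricted to `K` is a closed embedding (`IsCompact.isClosedEmbedding`-type lemma:
`Continuous.isClosedEmbedding` for the continuous injective map `K.restrict Φ` of a compact space
into a Hausdorff space), so `w` restricted to `S`, as a map to `K`, is continuous since its
composition with the embedding is `j` (`IsInducing.continuous_iff`). -/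
theorem lift_cont {n : ℕ} {K : Set (Fin n → ℂ)} (hK : IsCompact K)
    {Φ : (Fin n → ℂ) → (Fin n → ℂ)} (hc : ContinuousOn Φ K) (hi : InjOn Φ K) {S : Set ℂ}
    {j w : ℂ → (Fin n → ℂ)} (hj : ContinuousOn j S) (hw : ∀ z ∈ S, w z ∈ K ∧ Φ (w z) = j z) :
    ContinuousOn w S := by
  have : CompactSpace K := isCompact_iff_compactSpace.1 hK
  have hemb : IsClosedEmbedding (K.domRestrict Φ) :=
    (continuousOn_iff_continuous_domRestrict.1 hc).isClosedEmbedding
      (injOn_iff_injective.1 hi)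
  let w' : S → K := fun z => ⟨w z, (hw z z.2).1⟩
  have h1 : K.domRestrict Φ ∘ w' = S.domRestrict j := funext fun z => (hw z z.2).2
  have h2 : Continuous w' := by
    rw [hemb.isInducing.continuous_iff, h1]
    exact continuousOn_iff_continuous_domRestrict.1 hj
  rw [continuousOn_iff_continuous_domRestrict]
  exact continuous_subtype_val.comp h2

/-- Rescaling preserves `RationalInverse`.

Proof. Given `K` and `ε` apply the hypothesis to the compact set `{r⁻¹ • w | w ∈ K}` and `ε / r`; with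
`p', q'` from there put `p j = C r * bind₁ (fun i => C r⁻¹ * X i) (p' j)` and
`q j = bind₁ (fun i => C r⁻¹ * X i) (q' j)` (`MvPolynomial.bind₁`, `MvPolynomial.eval₂Hom_bind₁`,
`MvPolynomial.aeval_bind₁`): `eval (r • y) (q j) = eval y (q' j)`. -/
theorem rational_scale {n : ℕ} {r : ℝ} (hr : 0 < r) {Ψ : (Fin n → ℂ) → (Fin n → ℂ)}
    (h : RationalInverse Ψ) :
    RationalInverse (fun w => (r : ℂ) • Ψ ((r : ℂ)⁻¹ • w)) := by
  intro K hK ε hε
  have hr0 : (r : ℂ) ≠ 0 := by exact_mod_cast hr.ne'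
  obtain ⟨p', q', hpq⟩ := h ((fun w => (r : ℂ)⁻¹ • w) '' K)
    (hK.image (continuous_const_smul _)) (ε / r) (div_pos hε hr)
  let g : Fin n → MvPolynomial (Fin n) ℂ := fun i =>
    MvPolynomial.C (r : ℂ)⁻¹ * MvPolynomial.X i
  have hev : ∀ (x : Fin n → ℂ) (P : MvPolynomial (Fin n) ℂ),
      MvPolynomial.eval ((r : ℂ) • x) (MvPolynomial.bind₁ g P) = MvPolynomial.eval x P := by
    intro x P
    have h1 : MvPolynomial.eval ((r : ℂ) • x) (MvPolynomial.bind₁ g P) =
        MvPolynomial.eval (fun i => MvPolynomial.eval ((r : ℂ) • x) (g i)) P :=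
      MvPolynomial.eval₂Hom_bind₁ (RingHom.id ℂ) ((r : ℂ) • x) g P
    rw [h1]
    congr 2
    funext i
    simp only [g, map_mul, MvPolynomial.eval_C, MvPolynomial.eval_X, Pi.smul_apply, smul_eq_mul]
    rw [inv_mul_cancel_left₀ hr0]
  refine ⟨fun j => MvPolynomial.C (r : ℂ) * MvPolynomial.bind₁ g (p' j),
    fun j => MvPolynomial.bind₁ g (q' j), fun w hw j => ?_⟩
  obtain ⟨h1, h2⟩ := hpq ((r : ℂ)⁻¹ • w) ⟨w, hw, rfl⟩ j
  simp only [map_mul, MvPolynomial.eval_C, hev]
  refine ⟨h1, ?_⟩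
  have h3 : w j - (r : ℂ) * MvPolynomial.eval (Ψ ((r : ℂ)⁻¹ • w)) (p' j) /
      MvPolynomial.eval (Ψ ((r : ℂ)⁻¹ • w)) (q' j) =
      (r : ℂ) * (((r : ℂ)⁻¹ • w) j - MvPolynomial.eval (Ψ ((r : ℂ)⁻¹ • w)) (p' j) /
      MvPolynomial.eval (Ψ ((r : ℂ)⁻¹ • w)) (q' j)) := by
    rw [Pi.smul_apply, smul_eq_mul, mul_sub, mul_inv_cancel_left₀ hr0, mul_div_assoc]
  rw [h3, norm_mul, Complex.norm_real, Real.norm_of_nonneg hr.le]
  calc r * _ < r * (ε / r) := mul_lt_mul_of_pos_left h2 hr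
    _ = ε := mul_div_cancel₀ ε hr.ne'

end Pool.Agent.FBR
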