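import Pool.Agent.FBR.Defs

/-!
# Logarithms and zeros of Laurent polynomials (package FBR6)
-/

set_option autoImplicit false

namespace Pool.Agent.FBR

open Complex Set Topology

private theorem cball_compact (n : ℕ) (ρ : ℝ) : IsCompact (cball n ρ) := by
  apply Metric.isCompact_of_isClosed_isBounded
  · have h1 : Continuous fun z : Fin n → ℂ => ∑ i, ‖z i‖ ^ 2 := by fun_prop
    exact isClosed_le h1 continuous_const
  · rw [Metric.isBounded_iff_subset_closedBall 0]
    refine ⟨|ρ|, fun z hz => ?_⟩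
    rw [Metric.mem_closedBall, dist_zero_right]
    refine (pi_norm_le_iff_of_nonneg (abs_nonneg ρ)).2 fun i => ?_
    have h1 : ‖z i‖ ^ 2 ≤ ρ ^ 2 :=
      (Finset.single_le_sum (f := fun i => ‖z i‖ ^ 2) (fun j _ => by positivity)
        (Finset.mem_univ i)).trans hz
    have h2 := sq_le_sq.1 h1
    rwa [abs_of_nonneg (norm_nonneg _)] at h2

private theorem cball_norm {n : ℕ} {ρ : ℝ} (hρ : 0 ≤ ρ) {z : Fin n → ℂ} (hz : z ∈ cball n ρ) :
    ‖z‖ ≤ ρ := by
  refine (pi_norm_le_iff_of_nonneg hρ).2 fun i => ?_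
  have h1 : ‖z i‖ ^ 2 ≤ ρ ^ 2 :=
    (Finset.single_le_sum (f := fun i => ‖z i‖ ^ 2) (fun j _ => by positivity)
      (Finset.mem_univ i)).trans hz
  have h2 := sq_le_sq.1 h1
  rwa [abs_of_nonneg (norm_nonneg _), abs_of_nonneg hρ] at h2

private theorem cball_smul {n : ℕ} {ρ : ℝ} {z : Fin n → ℂ} (hz : z ∈ cball n ρ) {t : ℝ}
    (h0 : 0 ≤ t) (h1 : t ≤ 1) : t • z ∈ cball n ρ := by
  change ∑ i, ‖(t • z) i‖ ^ 2 ≤ ρ ^ 2
  refine le_trans (Finset.sum_le_sum fun i _ => ?_) hz
  rw [Pi.smul_apply, norm_smul, Real.norm_eq_abs, abs_of_nonneg h0]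
  have h2 : t * ‖z i‖ ≤ ‖z i‖ := mul_le_of_le_one_left (norm_nonneg _) h1
  exact pow_le_pow_left₀ (mul_nonneg h0 (norm_nonneg _)) h2 2

/-- A continuous function without zeros on the ball has a continuous logarithm on the ball.

Proof. `cball n ρ` is compact and star-shaped. `‖g‖ ≥ μ > 0` on it, and `g` is uniformly
continuous there: there is `N > 0` such that `‖g (((i + 1) / N) • z) - g ((i / N) • z)‖ < μ` for
all `z ∈ cball n ρ`, `i < N` (the points differ by `z / N`). So the quotient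
`g (((i + 1) / N) • z) / g ((i / N) • z)` is within distance `< 1` of `1`, so in
`Complex.slitPlane`, where `Complex.log` is continuous. Put
`φ z = log (g 0) + ∑ i < N, log (g (((i + 1) / N) • z) / g ((i / N) • z))`: continuous, and
`exp (φ z) = g 0 * ∏ = g z` (telescoping, `Finset.prod_range_div`). -/
theorem exists_log {n : ℕ} {ρ : ℝ} (hρ : 0 ≤ ρ) {g : (Fin n → ℂ) → ℂ} (hg : Continuous g)
    (h0 : ∀ z ∈ cball n ρ, g z ≠ 0) :
    ∃ φ : (Fin n → ℂ) → ℂ, ContinuousOn φ (cball n ρ) ∧ ∀ z ∈ cball n ρ, exp (φ z) = g z := by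
  have hK := cball_compact n ρ
  have h00 : (0 : Fin n → ℂ) ∈ cball n ρ := by
    change ∑ i, ‖(0 : Fin n → ℂ) i‖ ^ 2 ≤ ρ ^ 2
    simp only [Pi.zero_apply, norm_zero, ne_eq, OfNat.ofNat_ne_zero, not_false_eq_true, zero_pow,
      Finset.sum_const_zero]
    positivity
  obtain ⟨z₀, hz₀, hmin⟩ := hK.exists_isMinOn ⟨0, h00⟩ hg.norm.continuousOn
  have hμ : 0 < ‖g z₀‖ := norm_pos_iff.2 (h0 z₀ hz₀)
  have huc := hK.uniformContinuousOn_of_continuous hg.continuousOn
  obtain ⟨δ, hδ, huc'⟩ := Metric.uniformContinuousOn_iff.1 huc ‖g z₀‖ hμ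
  obtain ⟨N, hN⟩ := exists_nat_gt (ρ / δ)
  have hN0 : (0 : ℝ) < N := lt_of_le_of_lt (by positivity) hN
  have hmem : ∀ z ∈ cball n ρ, ∀ i ≤ N, ((i : ℝ) / N) • z ∈ cball n ρ := by
    intro z hz i hi
    refine cball_smul hz (by positivity) ?_
    rw [div_le_one hN0]
    exact_mod_cast hi
  have hquot : ∀ z ∈ cball n ρ, ∀ i < N,
      g ((((i + 1 : ℕ) : ℝ) / N) • z) / g (((i : ℝ) / N) • z) ∈ slitPlane := by
    intro z hz i hi
    have h1 := hmem z hz i hi.le
    have h2 := hmem z hz (i + 1) hi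
    have h3 : dist ((((i + 1 : ℕ) : ℝ) / N) • z) (((i : ℝ) / N) • z) < δ := by
      rw [dist_eq_norm, ← sub_smul, norm_smul]
      have h4 : ((i + 1 : ℕ) : ℝ) / N - (i : ℝ) / N = 1 / N := by
        push_cast
        ring
      rw [h4, Real.norm_eq_abs, abs_of_pos (by positivity)]
      calc 1 / (N : ℝ) * ‖z‖ ≤ 1 / N * ρ :=
            mul_le_mul_of_nonneg_left (cball_norm hρ hz) (by positivity)
        _ = ρ / N := by ring
        _ < δ := by
            rw [div_lt_iff₀ hN0]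
            rw [div_lt_iff₀ hδ] at hN
            linarith
    have h4 := huc' _ h2 _ h1 h3
    rw [dist_eq_norm] at h4
    have h5 : ‖g z₀‖ ≤ ‖g (((i : ℝ) / N) • z)‖ := hmin h1
    have h6 : g (((i : ℝ) / N) • z) ≠ 0 := h0 _ h1
    have h7 : g ((((i + 1 : ℕ) : ℝ) / N) • z) / g (((i : ℝ) / N) • z) =
        1 + (g ((((i + 1 : ℕ) : ℝ) / N) • z) - g (((i : ℝ) / N) • z)) /
          g (((i : ℝ) / N) • z) := by
      field_simp
      ring
    rw [h7]
    apply mem_slitPlane_of_norm_lt_one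
    rw [norm_div, div_lt_one (norm_pos_iff.2 h6)]
    exact h4.trans_le h5
  refine ⟨fun z => log (g 0) + ∑ i ∈ Finset.range N,
    log (g ((((i + 1 : ℕ) : ℝ) / N) • z) / g (((i : ℝ) / N) • z)), ?_, fun z hz => ?_⟩
  · refine continuousOn_const.add (continuousOn_finsetSum _ fun i hi => ?_)
    have hi' := Finset.mem_range.1 hi
    refine ContinuousOn.clog ?_ fun z hz => hquot z hz i hi'
    refine ContinuousOn.div ?_ ?_ fun z hz => h0 _ (hmem z hz i hi'.le)
    · exact (hg.comp (continuous_const_smul _)).continuousOn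
    · exact (hg.comp (continuous_const_smul _)).continuousOn
  · have key : ∀ M ≤ N, exp (log (g 0) + ∑ i ∈ Finset.range M,
        log (g ((((i + 1 : ℕ) : ℝ) / N) • z) / g (((i : ℝ) / N) • z))) =
          g (((M : ℝ) / N) • z) := by
      intro M
      induction M with
      | zero =>
        intro _
        rw [Finset.range_zero, Finset.sum_empty, add_zero, exp_log (h0 0 h00)]
        simp
      | succ M ih =>
        intro hM
        have h1 := hmem z hz M (by omega)
        rw [Finset.sum_range_succ, ← add_assoc, exp_add, ih (by omega),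
          exp_log (slitPlane_ne_zero (hquot z hz M (by omega))),
          mul_div_cancel₀ _ (h0 _ h1)]
    have h1 := key N le_rfl
    rw [div_self hN0.ne', one_smul] at h1
    exact h1

/-- winding number `M` on the circle of radius `R` -/
private def WN (R : ℝ) (P : ℂ → ℂ) (M : ℕ) : Prop :=
  ∃ ℓ : ℝ → ℂ, Continuous ℓ ∧ (∀ θ, ℓ (θ + 2 * Real.pi) = ℓ θ) ∧
    ∀ θ : ℝ, exp (ℓ θ) * (R * exp (I * θ)) ^ M = P (R * exp (I * θ))

private theorem norm_circ {R : ℝ} (hR : 0 < R) (θ : ℝ) : ‖(R : ℂ) * exp (I * θ)‖ = R := by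
  rw [norm_mul, norm_real, Real.norm_eq_abs, abs_of_pos hR, mul_comm I, norm_exp_ofReal_mul_I,
    mul_one]

private theorem circ_ne {R : ℝ} (hR : 0 < R) (θ : ℝ) : (R : ℂ) * exp (I * θ) ≠ 0 := by
  rw [← norm_pos_iff, norm_circ hR]
  exact hR

private theorem circ_per (R θ : ℝ) :
    (R : ℂ) * exp (I * ((θ + 2 * Real.pi : ℝ) : ℂ)) = R * exp (I * θ) := by
  have h1 : I * ((θ + 2 * Real.pi : ℝ) : ℂ) = I * θ + 2 * Real.pi * I := by
    push_cast
    ring
  rw [h1, exp_periodic]

private theorem circ_cont (R : ℝ) : Continuous fun θ : ℝ => (R : ℂ) * exp (I * θ) := by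
  fun_prop

private theorem const_of_exp {h : ℝ → ℂ} (hc : Continuous h) (c : ℂ)
    (he : ∀ θ, exp (h θ) = c) (θ : ℝ) : h θ = h 0 := by
  have h1 : (Set.range fun n : ℤ => h 0 + n * (2 * Real.pi * I)).Countable :=
    Set.countable_range _
  have h2 := h1.isTotallyDisconnected
  have h3 : IsPreconnected (Set.range h) := isPreconnected_range hc
  have h4 : Set.range h ⊆ Set.range fun n : ℤ => h 0 + n * (2 * Real.pi * I) := by
    rintro _ ⟨x, rfl⟩
    have h5 : exp (h x - h 0) = 1 := by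
      rw [exp_sub, he x, he 0, div_self]
      rw [← he 0]
      exact exp_ne_zero _
    obtain ⟨n, hn⟩ := exp_eq_one_iff.1 h5
    exact ⟨n, by beta_reduce; rw [← hn]; ring⟩
  exact h2 _ h4 h3 ⟨θ, rfl⟩ ⟨0, rfl⟩

private theorem WN_unique {R : ℝ} (hR : 0 < R) {P : ℂ → ℂ} {M N : ℕ} (h : WN R P M)
    (h' : WN R P N) : M = N := by
  obtain ⟨ℓ, hc, hp, he⟩ := h
  obtain ⟨ℓ', hc', hp', he'⟩ := h'
  have hRc : (R : ℂ) ≠ 0 := by exact_mod_cast hR.ne'
  have h1 : ∀ θ : ℝ, exp (ℓ θ - ℓ' θ + ((M : ℂ) - N) * (I * θ)) =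
      (R : ℂ) ^ N / (R : ℂ) ^ M := by
    intro θ
    have h2 := (he θ).trans (he' θ).symm
    rw [mul_pow, mul_pow, ← exp_nat_mul, ← exp_nat_mul] at h2
    have h3 : exp (ℓ θ - ℓ' θ + ((M : ℂ) - N) * (I * θ)) =
        exp (ℓ θ) * exp (M * (I * θ)) / (exp (ℓ' θ) * exp (N * (I * θ))) := by
      rw [← exp_add, ← exp_add, ← exp_sub]
      congr 1
      ring
    rw [h3]
    have h4 := exp_ne_zero (ℓ' θ)
    have h5 := exp_ne_zero ((N : ℂ) * (I * θ))
    rw [div_eq_div_iff (mul_ne_zero h4 h5) (pow_ne_zero _ hRc)]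
    linear_combination h2
  have h2 := const_of_exp (h := fun θ : ℝ => ℓ θ - ℓ' θ + ((M : ℂ) - N) * (I * θ))
    (by fun_prop) _ h1 (2 * Real.pi)
  have h3 : ℓ (2 * Real.pi) = ℓ 0 := by
    have := hp 0
    rwa [zero_add] at this
  have h4 : ℓ' (2 * Real.pi) = ℓ' 0 := by
    have := hp' 0
    rwa [zero_add] at this
  simp only [h3, h4, ofReal_zero, mul_zero, add_zero, add_eq_left] at h2
  have h5 : ((M : ℂ) - N) = 0 := by
    rcases mul_eq_zero.1 h2 with h6 | h6
    · exact h6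
    · exfalso
      have h7 : (I * ((2 * Real.pi : ℝ) : ℂ)) ≠ 0 := by
        refine mul_ne_zero I_ne_zero ?_
        exact_mod_cast (by positivity : (2 * Real.pi : ℝ) ≠ 0)
      exact h7 h6
  have h6 := sub_eq_zero.1 h5
  exact_mod_cast h6

private theorem one_sub_slit {w : ℂ} (hw : ‖w‖ < 1) : 1 - w ∈ slitPlane := by
  rw [sub_eq_add_neg]
  apply mem_slitPlane_of_norm_lt_one
  rwa [norm_neg]

private theorem WN_mul {R : ℝ} (hR : 0 < R) {P : ℂ → ℂ} {M : ℕ} (h : WN R P M) {α : ℂ}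
    (hα : ‖α‖ ≠ R) : WN R (fun z => (z - α) * P z) (M + if ‖α‖ < R then 1 else 0) := by
  obtain ⟨ℓ, hc, hp, he⟩ := h
  split_ifs with hlt
  · have hs : ∀ θ : ℝ, 1 - α / ((R : ℂ) * exp (I * θ)) ∈ slitPlane := fun θ =>
      one_sub_slit (by rw [norm_div, norm_circ hR, div_lt_one hR]; exact hlt)
    refine ⟨fun θ => ℓ θ + log (1 - α / ((R : ℂ) * exp (I * θ))), ?_, fun θ => ?_, fun θ => ?_⟩
    · refine hc.add (Continuous.clog ?_ hs)
      exact continuous_const.sub (continuous_const.div (circ_cont R) (circ_ne hR))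
    · beta_reduce
      rw [hp, circ_per]
    · beta_reduce
      rw [exp_add, exp_log (slitPlane_ne_zero (hs θ)), ← he θ, pow_succ]
      have h1 := circ_ne hR θ
      have h2 : (1 - α / ((R : ℂ) * exp (I * θ))) * ((R : ℂ) * exp (I * θ)) =
          (R : ℂ) * exp (I * θ) - α := by
        rw [sub_mul, one_mul, div_mul_cancel₀ _ h1]
      calc exp (ℓ θ) * (1 - α / ((R : ℂ) * exp (I * θ))) *
            (((R : ℂ) * exp (I * θ)) ^ M * ((R : ℂ) * exp (I * θ))) =
            ((1 - α / ((R : ℂ) * exp (I * θ))) * ((R : ℂ) * exp (I * θ))) *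
              (exp (ℓ θ) * ((R : ℂ) * exp (I * θ)) ^ M) := by ring
        _ = _ := by rw [h2]
  · have hgt : R < ‖α‖ := lt_of_le_of_ne (not_lt.1 hlt) (Ne.symm hα)
    have hα0 : α ≠ 0 := norm_pos_iff.1 (hR.trans hgt)
    have hs : ∀ θ : ℝ, 1 - ((R : ℂ) * exp (I * θ)) / α ∈ slitPlane := fun θ =>
      one_sub_slit (by rw [norm_div, norm_circ hR, div_lt_one (hR.trans hgt)]; exact hgt)
    refine ⟨fun θ => ℓ θ + (log (-α) + log (1 - ((R : ℂ) * exp (I * θ)) / α)), ?_, fun θ => ?_,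
      fun θ => ?_⟩
    · refine hc.add (continuous_const.add (Continuous.clog ?_ hs))
      exact continuous_const.sub ((circ_cont R).div_const α)
    · beta_reduce
      rw [hp, circ_per]
    · beta_reduce
      rw [exp_add, exp_add, exp_log (slitPlane_ne_zero (hs θ)), exp_log (neg_ne_zero.2 hα0),
        ← he θ, add_zero]
      have h2 : -α * (1 - ((R : ℂ) * exp (I * θ)) / α) = (R : ℂ) * exp (I * θ) - α := by
        field_simp
        ring
      rw [h2]
      ring

private theorem WN_prod {R : ℝ} (hR : 0 < R) (c : ℂ) (hc : c ≠ 0) (s : Multiset ℂ)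
    (hs : ∀ α ∈ s, ‖α‖ ≠ R) :
    WN R (fun z => (s.map fun α => z - α).prod * c) (s.filter fun α => ‖α‖ < R).card := by
  induction s using Multiset.induction_on with
  | empty =>
    refine ⟨fun _ => log c, continuous_const, fun θ => rfl, fun θ => ?_⟩
    simp [exp_log hc]
  | cons α s ih =>
    have h1 := WN_mul hR (ih fun β hβ => hs β (Multiset.mem_cons_of_mem hβ))
      (hs α (Multiset.mem_cons_self α s))
    have h2 : ((α ::ₘ s).filter fun α => ‖α‖ < R).card =
        (s.filter fun α => ‖α‖ < R).card + if ‖α‖ < R then 1 else 0 := by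
      split_ifs with h
      · rw [Multiset.filter_cons_of_pos (p := fun α : ℂ => ‖α‖ < R) _ h, Multiset.card_cons]
      · rw [Multiset.filter_cons_of_neg (p := fun α : ℂ => ‖α‖ < R) _ h, add_zero]
    have h3 : (fun z => ((α ::ₘ s).map fun α => z - α).prod * c) =
        fun z => (z - α) * ((s.map fun α => z - α).prod * c) := by
      funext z
      rw [Multiset.map_cons, Multiset.prod_cons, mul_assoc]
    rw [h2, h3]
    exact h1

private theorem circ_arg {R : ℝ} {α : ℂ} (hα : ‖α‖ = R) : (R : ℂ) * exp (I * α.arg) = α := by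
  rw [← hα, mul_comm I]
  exact norm_mul_exp_arg_mul_I α

/-- **The number of roots inside a circle.** If `z ^ (-N) P (z)` has a continuous logarithm on the
circle of radius `R` then `P` has exactly `N` roots (with multiplicities) in the disc.

Proof. `P = C c * ∏ (X - C α)` over the multiset `P.roots` (`IsAlgClosed`). No root has modulus
`R`, and `P ≠ 0`. On the circle a factor with `‖α‖ < R` is
`z - α = z * exp (log (1 - α / z))` and a factor with `‖α‖ > R` is
`z - α = -α * exp (log (1 - z / α))` (both logarithms of numbers in `{re > 0}`, so continuous). So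
`exp (ℓ θ) = P (z) / z ^ N = c' * z ^ (M - N) * exp (ψ θ)` with `z = R exp (I θ)`, `c' ≠ 0`,
`M` the number of roots in the disc and `ψ` continuous of period `2 π`. Hence
`χ θ = ℓ θ - ψ θ - (M - N) I θ` is continuous and `exp (χ θ)` is constant, so `χ` is constant
(a continuous function into a discrete set: `exp (χ θ - χ 0) = 1`, so `χ θ - χ 0 ∈ 2 π I ℤ`), and
`χ (2 π) = χ 0` gives `(M - N) 2 π I = 0`. (An alternative is `∮ P' / P`.) -/
theorem card_roots {P : Polynomial ℂ} {N : ℕ} {R : ℝ} (hR : 0 < R) {ℓ : ℝ → ℂ}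
    (hc : Continuous ℓ) (hper : ∀ θ, ℓ (θ + 2 * Real.pi) = ℓ θ)
    (h : ∀ θ : ℝ, exp (ℓ θ) * (R * exp (I * θ)) ^ N = P.eval (R * exp (I * θ))) :
    (P.roots.filter fun α => ‖α‖ < R).card = N := by
  have hP : ∀ θ : ℝ, P.eval ((R : ℂ) * exp (I * θ)) ≠ 0 := by
    intro θ
    rw [← h θ]
    exact mul_ne_zero (exp_ne_zero _) (pow_ne_zero _ (circ_ne hR θ))
  have hP0 : P ≠ 0 := by
    rintro rfl
    exact hP 0 (by simp)
  have hroots : ∀ α ∈ P.roots, ‖α‖ ≠ R := by
    intro α hα hR'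
    have h1 := (Polynomial.mem_roots hP0).1 hα
    have h2 := hP α.arg
    rw [circ_arg hR'] at h2
    exact h2 h1
  have hfac : ∀ z : ℂ, P.eval z = (P.roots.map fun α => z - α).prod * P.leadingCoeff := by
    intro z
    have h1 := (IsAlgClosed.splits P).eq_prod_roots
    have h2 : P.eval z = (Polynomial.C P.leadingCoeff *
        (P.roots.map fun a => Polynomial.X - Polynomial.C a).prod).eval z := by
      rw [← h1]
    rw [h2, Polynomial.eval_mul, Polynomial.eval_C, Polynomial.eval_multiset_prod,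
      Multiset.map_map, mul_comm]
    congr 2
    refine Multiset.map_congr rfl fun α _ => ?_
    simp
  have hW := WN_prod hR P.leadingCoeff (Polynomial.leadingCoeff_ne_zero.2 hP0) P.roots hroots
  have hW' : WN R (fun z => (P.roots.map fun α => z - α).prod * P.leadingCoeff) N :=
    ⟨ℓ, hc, hper, fun θ => by rw [h θ, hfac]⟩
  exact WN_unique hR hW hW'

/-- Proof. `card_roots` for `a` and `b`: the filtered multisets have the same number of elements
and the one for `a` is contained in the one for `b`, so they are equal; a root in the closed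
annulus which is not on one of the circles (there `P` has no root) would be in the second
multiset and not in the first. -/
theorem no_zero {P : Polynomial ℂ} {N : ℕ} {a b : ℝ} (ha : 0 < a) (hab : a < b) {ℓ ℓ' : ℝ → ℂ}
    (hc : Continuous ℓ) (hper : ∀ θ, ℓ (θ + 2 * Real.pi) = ℓ θ)
    (h : ∀ θ : ℝ, exp (ℓ θ) * (a * exp (I * θ)) ^ N = P.eval (a * exp (I * θ)))
    (hc' : Continuous ℓ') (hper' : ∀ θ, ℓ' (θ + 2 * Real.pi) = ℓ' θ)
    (h' : ∀ θ : ℝ, exp (ℓ' θ) * (b * exp (I * θ)) ^ N = P.eval (b * exp (I * θ))) {z : ℂ}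
    (hz : a ≤ ‖z‖) (hz' : ‖z‖ ≤ b) : P.eval z ≠ 0 := by
  intro hP
  have hb : 0 < b := ha.trans hab
  have h1 := card_roots ha hc hper h
  have h2 := card_roots hb hc' hper' h'
  have hPa : ∀ θ : ℝ, P.eval ((a : ℂ) * exp (I * θ)) ≠ 0 := by
    intro θ
    rw [← h θ]
    exact mul_ne_zero (exp_ne_zero _) (pow_ne_zero _ (circ_ne ha θ))
  have hPb : ∀ θ : ℝ, P.eval ((b : ℂ) * exp (I * θ)) ≠ 0 := by
    intro θ
    rw [← h' θ]
    exact mul_ne_zero (exp_ne_zero _) (pow_ne_zero _ (circ_ne hb θ))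
  have hP0 : P ≠ 0 := by
    rintro rfl
    exact hPa 0 (by simp)
  have hzb : ‖z‖ < b := by
    refine lt_of_le_of_ne hz' fun h3 => ?_
    have h4 := hPb z.arg
    rw [circ_arg h3] at h4
    exact h4 hP
  have hle : (P.roots.filter fun α => ‖α‖ < a) ≤ P.roots.filter fun α => ‖α‖ < b :=
    Multiset.monotone_filter_right _ fun α hα => hα.trans hab
  have heq := Multiset.eq_of_le_of_card_le hle (by rw [h1, h2])
  have hmem : z ∈ P.roots.filter fun α => ‖α‖ < b :=
    Multiset.mem_filter.2 ⟨(Polynomial.mem_roots hP0).2 hP, hzb⟩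
  rw [← heq] at hmem
  exact absurd (Multiset.mem_filter.1 hmem).2 (not_lt.2 hz)

end Pool.Agent.FBR
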