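import Pool.Agent.FBR.Gap
import Pool.Agent.FBR.Ann
import Pool.Agent.FBR.Win
import Pool.Agent.FBR.Laur
import Pool.Agent.FBR.Lift

/-!
# The annulus lies in the image (package FBR9)
-/

set_option autoImplicit false

namespace Pool.Agent.FBR

open Filter Topology Set Complex

private theorem norm_circ {R : ℝ} (hR : 0 < R) (θ : ℝ) : ‖(R : ℂ) * exp (I * θ)‖ = R := by
  rw [norm_mul, Complex.norm_real, Real.norm_of_nonneg hR.le, mul_comm I (θ : ℂ),
    Complex.norm_exp_ofReal_mul_I, mul_one]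

private theorem circ_per {R : ℝ} (θ : ℝ) :
    (R : ℂ) * exp (I * ((θ + 2 * Real.pi : ℝ) : ℂ)) = (R : ℂ) * exp (I * θ) := by
  congr 1
  have h : I * ((θ + 2 * Real.pi : ℝ) : ℂ) = I * θ + 2 * Real.pi * I := by
    push_cast
    ring
  rw [h, Complex.exp_periodic]

private theorem Rb_pos : 0 < Rb := Ra_pos.trans Ra_lt_Rb

/-- **The denominators have no zeros on the annulus.** Here `w` is the lift of the two circles and
the denominator `q` does not vanish on the image of the ball.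

Proof. `g x = MvPolynomial.eval (Φ x) q` is continuous and has no zero on `cball (m + 2) ρ`, so
`exp ∘ φ = g` there (`exists_log`). Let `(N, P)` be from `laurent m q`. For `R = Ra` and `R = Rb`
put `ℓ θ = φ (w (R * exp (I * θ)))`: continuous (`lift_cont` with `S = {‖z‖ = Ra ∨ ‖z‖ = Rb}`,
`K = cball`), of period `2 π`, and `exp (ℓ θ) = g (w ..) = MvPolynomial.eval (io m (R exp (I θ))) q`,
so `exp (ℓ θ) * (R exp (I θ)) ^ N = P.eval (R exp (I θ))`. `no_zero` gives `P.eval z ≠ 0` for `z` in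
the closed annulus, so `MvPolynomial.eval (io m z) q ≠ 0` (`laurent`). -/
theorem den_ne {m : ℕ} {ρ : ℝ} (hρ : 0 ≤ ρ) {Φ : (Fin (m + 2) → ℂ) → (Fin (m + 2) → ℂ)}
    (hd : Continuous Φ) (hi : InjOn Φ (cball (m + 2) ρ)) {w : ℂ → (Fin (m + 2) → ℂ)}
    (hw : ∀ z : ℂ, ‖z‖ = Ra ∨ ‖z‖ = Rb → w z ∈ cball (m + 2) ρ ∧ Φ (w z) = io m z)
    {q : MvPolynomial (Fin (m + 2)) ℂ}
    (hq : ∀ x ∈ cball (m + 2) ρ, MvPolynomial.eval (Φ x) q ≠ 0) {z : ℂ} (hz : Ra ≤ ‖z‖)
    (hz' : ‖z‖ ≤ Rb) : MvPolynomial.eval (io m z) q ≠ 0 := by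
  have hg : Continuous (fun x => MvPolynomial.eval (Φ x) q) :=
    (MvPolynomial.continuous_eval q).comp hd
  obtain ⟨φ, hφc, hφ⟩ := exists_log hρ hg hq
  obtain ⟨N, P, hP⟩ := laurent m q
  have hpos : ∀ z : ℂ, ‖z‖ = Ra ∨ ‖z‖ = Rb → z ≠ 0 := by
    rintro z hz rfl
    rw [norm_zero] at hz
    rcases hz with h | h
    · exact Ra_pos.ne h
    · exact Rb_pos.ne h
  have hwc : ContinuousOn w {z : ℂ | ‖z‖ = Ra ∨ ‖z‖ = Rb} := by
    refine lift_cont (isCompact_cball (m + 2) ρ) hd.continuousOn hi (j := io m) ?_ ?_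
    · exact (io_diff m).continuousOn.mono fun z hz => hpos z hz
    · exact fun z hz => hw z hz
  have key : ∀ R : ℝ, R = Ra ∨ R = Rb →
      Continuous (fun θ : ℝ => φ (w (R * exp (I * θ)))) ∧
      (∀ θ : ℝ, φ (w (R * exp (I * ((θ + 2 * Real.pi : ℝ) : ℂ)))) = φ (w (R * exp (I * θ)))) ∧
      (∀ θ : ℝ, exp (φ (w (R * exp (I * θ)))) * (R * exp (I * θ)) ^ N
        = P.eval (R * exp (I * θ))) := by
    intro R hR
    have hR0 : 0 < R := by
      rcases hR with h | h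
      · exact h ▸ Ra_pos
      · exact h ▸ Rb_pos
    have hmem : ∀ θ : ℝ, ‖(R : ℂ) * exp (I * θ)‖ = Ra ∨ ‖(R : ℂ) * exp (I * θ)‖ = Rb := by
      intro θ
      rw [norm_circ hR0]
      exact hR
    refine ⟨?_, ?_, ?_⟩
    · have h1 : Continuous (fun θ : ℝ => (R : ℂ) * exp (I * θ)) := by fun_prop
      have h2 : Continuous (fun θ : ℝ => w (R * exp (I * θ))) :=
        hwc.comp_continuous h1 hmem
      exact hφc.comp_continuous h2 fun θ => (hw _ (hmem θ)).1
    · intro θ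
      rw [circ_per]
    · intro θ
      have h1 := hw _ (hmem θ)
      rw [hφ _ h1.1, h1.2]
      exact hP _ (hpos _ (hmem θ))
  obtain ⟨a1, a2, a3⟩ := key Ra (Or.inl rfl)
  obtain ⟨b1, b2, b3⟩ := key Rb (Or.inr rfl)
  have h1 := no_zero Ra_pos Ra_lt_Rb a1 a2 a3 b1 b2 b3 hz hz'
  have hz0 : z ≠ 0 := by
    rintro rfl
    rw [norm_zero] at hz
    exact absurd Ra_pos (not_lt.2 hz)
  intro h2
  apply h1
  rw [← hP z hz0, h2, zero_mul]

/-- **Core.** If the two circles are in the image of the ball of radius `ρ`, then the annulus is.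

Proof. Choose `w z` for `z` on the circles. Apply `annulus_ext` with `n = m + 2`, `a = Ra`, `b = Rb`,
`Ψ = Φ`, `r = ρ + 1`, `j = io m` (`io_diff`). The maps `T` for `ε`: `RationalInverse` for the compact
set `cball (m + 2) ρ` (`isCompact_cball`) gives `p, q`; put
`T z i = MvPolynomial.eval (io m z) (p i) / MvPolynomial.eval (io m z) (q i)`. By `den_ne` the
denominators have no zeros on the closed annulus, so `T` is differentiable on the closure of
`ann Ra Rb` (`eval_io_diff`; the closure is contained in `{Ra ≤ ‖z‖ ≤ Rb}`), so `DiffContOnCl`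
(`DifferentiableOn.diffContOnCl`). On the circles `io m z = Φ (w z)`, so
`‖T z i - w z i‖ < ε` for all `i`, and `‖T z - w z‖ ≤ ε` (`pi_norm_le_iff_of_nonneg`). -/
theorem ann_in_image {m : ℕ} {ρ : ℝ} (hρ : 0 ≤ ρ) {Φ : (Fin (m + 2) → ℂ) → (Fin (m + 2) → ℂ)}
    (hd : Differentiable ℂ Φ) (hi : Function.Injective Φ) (hr : RationalInverse Φ)
    (hcirc : ∀ z : ℂ, ‖z‖ = Ra ∨ ‖z‖ = Rb → ∃ w ∈ cball (m + 2) ρ, Φ w = io m z) {z : ℂ}
    (hz : Ra ≤ ‖z‖) (hz' : ‖z‖ ≤ Rb) : ∃ w ∈ cball (m + 2) ρ, Φ w = io m z := by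
  classical
  have hex : ∀ z : ℂ, ∃ w : Fin (m + 2) → ℂ, (‖z‖ = Ra ∨ ‖z‖ = Rb) →
      (w ∈ cball (m + 2) ρ ∧ Φ w = io m z) := by
    intro z
    by_cases h : ‖z‖ = Ra ∨ ‖z‖ = Rb
    · obtain ⟨w, hw⟩ := hcirc z h
      exact ⟨w, fun _ => hw⟩
    · exact ⟨0, fun h' => absurd h' h⟩
  choose w hw using hex
  refine annulus_ext Ra_pos Ra_lt_Rb hρ (lt_add_one ρ) hd.differentiableOn (io_diff m) hw ?_ hz hz'
  intro ε hε
  obtain ⟨p, q, hpq⟩ := hr _ (isCompact_cball (m + 2) ρ) ε hε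
  have hcl : closure (ann Ra Rb) ⊆ {z : ℂ | Ra ≤ ‖z‖ ∧ ‖z‖ ≤ Rb} := by
    refine closure_minimal (fun z hz => ⟨hz.1.le, hz.2.le⟩) ?_
    exact (isClosed_le continuous_const continuous_norm).inter
      (isClosed_le continuous_norm continuous_const)
  refine ⟨fun z i => MvPolynomial.eval (io m z) (p i) / MvPolynomial.eval (io m z) (q i), ?_, ?_⟩
  · apply DifferentiableOn.diffContOnCl
    rw [differentiableOn_pi]
    intro i
    have hsub : closure (ann Ra Rb) ⊆ {z : ℂ | z ≠ 0} := by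
      rintro z hz rfl
      have := (hcl hz).1
      rw [norm_zero] at this
      exact absurd Ra_pos (not_lt.2 this)
    refine DifferentiableOn.div ((eval_io_diff m (p i)).mono hsub)
      ((eval_io_diff m (q i)).mono hsub) ?_
    intro z hz
    exact den_ne hρ hd.continuous hi.injOn hw (fun x hx => (hpq x hx i).1) (hcl hz).1 (hcl hz).2
  · intro z hz
    rw [pi_norm_le_iff_of_nonneg hε.le]
    intro i
    have h1 := hw z hz
    have h2 := (hpq _ h1.1 i).2
    rw [h1.2] at h2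
    rw [Pi.sub_apply, norm_sub_rev]
    exact h2.le

end Pool.Agent.FBR
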