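import Mathlib

/-!
# MP_5df1bc_an: Fatou-Bieberbach maps with rational approximation of the inverse (definitions)

`ff m` is an explicit normalised univalent map on the unit ball of `ℂ^(m+2)`. With `u = z₀ z₁`:
`ff m z = (z₀ exp (-3 i u), z₁ exp (3 i u) (exp (3 π u) - 1) / (3 π u), z₂, z₃, ..)`.
The fibre `{z₀ z₁ = vs, z₂ = .. = 0}`, `vs = -2 / (3 π)`, meets the image in two disjoint annuli; the
circles `|z₀| = e / √3` and `|z₀| = 1 / (e √3)` lie in the image, the circle `|z₀| = 1 / √3` does not.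

THEOREM. `ff m` is not a limit, uniformly on a ball of radius `ρ > √(2/3)`, of injective entire maps
whose inverses are limits of rational maps.
-/

set_option autoImplicit false

namespace Pool.Agent.FBR

open Complex

/-- the closed euclidean ball of radius `ρ` -/
def cball (n : ℕ) (ρ : ℝ) : Set (Fin n → ℂ) := {z | ∑ i, ‖z i‖ ^ 2 ≤ ρ ^ 2}

/-- the open euclidean ball of radius `ρ` -/
def oball (n : ℕ) (ρ : ℝ) : Set (Fin n → ℂ) := {z | ∑ i, ‖z i‖ ^ 2 < ρ ^ 2}

/-- the open unit ball -/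
def uball (n : ℕ) : Set (Fin n → ℂ) := {z | ∑ i, ‖z i‖ ^ 2 < 1}

/-- `(exp (3 π u) - 1) / (3 π u)`, with the value `1` at `0` -/
noncomputable def E1 (u : ℂ) : ℂ := dslope Complex.exp 0 (3 * Real.pi * u)

/-- the univalent map -/
noncomputable def ff (m : ℕ) (z : Fin (m + 2) → ℂ) : Fin (m + 2) → ℂ := fun i =>
  if i = 0 then z 0 * exp (-3 * I * (z 0 * z 1))
  else if i = 1 then z 1 * (exp (3 * I * (z 0 * z 1)) * E1 (z 0 * z 1))
  else z i

/-- the special value of `z₀ z₁` -/
noncomputable def vs : ℂ := -2 / (3 * Real.pi)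

/-- the fibre: `(z, vs / z, 0, .., 0)` -/
noncomputable def io (m : ℕ) (z : ℂ) : Fin (m + 2) → ℂ := fun i =>
  if i = 0 then z else if i = 1 then vs / z else 0

/-- the radii of the two circles -/
noncomputable def Ra : ℝ := Real.exp (-1) / Real.sqrt 3

/-- see `Ra` -/
noncomputable def Rb : ℝ := Real.exp 1 / Real.sqrt 3

/-- The inverse of `Ψ` is a limit of rational maps: on every compact subset `Ψ (K)` of the image it
is approximated uniformly by rational maps without poles on `Ψ (K)`. -/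
def RationalInverse {n : ℕ} (Ψ : (Fin n → ℂ) → (Fin n → ℂ)) : Prop :=
  ∀ K : Set (Fin n → ℂ), IsCompact K → ∀ ε : ℝ, 0 < ε →
    ∃ p q : Fin n → MvPolynomial (Fin n) ℂ, ∀ w ∈ K, ∀ j,
      MvPolynomial.eval (Ψ w) (q j) ≠ 0 ∧
      ‖w j - MvPolynomial.eval (Ψ w) (p j) / MvPolynomial.eval (Ψ w) (q j)‖ < ε

end Pool.Agent.FBR
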