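import Pool.Agent.FBR.Map

/-!
# The two circles and the gap (package FBR2)
-/

set_option autoImplicit false

namespace Pool.Agent.FBR

open Complex Set

private theorem s3_pos : 0 < Real.sqrt 3 := Real.sqrt_pos.2 (by norm_num)

private theorem s3_sq : Real.sqrt 3 * Real.sqrt 3 = 3 := Real.mul_self_sqrt (by norm_num)

private theorem s3_lt : Real.sqrt 3 < 2 := by
  nlinarith [s3_sq, s3_pos]

private theorem s3_lt_e : Real.sqrt 3 < Real.exp 1 := by
  have h := Real.exp_one_gt_d9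
  linarith [s3_lt]

private theorem pi_ne : (Real.pi : ℂ) ≠ 0 := by
  exact_mod_cast Real.pi_ne_zero

private theorem io_prod (m : ℕ) {z : ℂ} (hz : z ≠ 0) : io m z 0 * io m z 1 = vs := by
  have h0 : io m z 0 = z := by simp [io]
  have h1 : io m z 1 = vs / z := by
    unfold io
    rw [if_neg (by simp), if_pos rfl]
  rw [h0, h1, mul_div_cancel₀ _ hz]

/-- Proof. Let `ff m w = io m z₀`, `z₀ = 1 / √3`, `u = w₀ w₁`. The product of the first two
coordinates is `vs = -2 / (3 π)`; with `ff_prod`, `E1_mul`: `exp (3 π u) = -1 = exp (π I)`, so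
`u = (2 k + 1) I / 3`, `k : ℤ`; `‖u‖ < 1/2` (`uball_bd`) gives `k = 0` or `k = -1`.
`u = I/3`: `w₀ * exp 1 = z₀`, so `‖w₀‖ = exp (-1) / √3` and `‖w₁‖ = (1/3) / ‖w₀‖ = exp 1 / √3 > 1`
(`exp 1 > 2.7`, `√3 < 2`).
`u = -I/3`: `w₀ * exp (-1) = z₀`, so `‖w₀‖ = exp 1 / √3 > 1`. Both contradict `uball_bd`. -/
theorem gap (m : ℕ) {w : Fin (m + 2) → ℂ} (hw : w ∈ uball (m + 2)) :
    ff m w ≠ io m ((1 / Real.sqrt 3 : ℝ) : ℂ) := by
  intro h
  obtain ⟨b0, b1, b2⟩ := uball_bd m hw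
  have hs := s3_pos
  have hz0 : ((1 / Real.sqrt 3 : ℝ) : ℂ) ≠ 0 := by
    have : (1 / Real.sqrt 3 : ℝ) ≠ 0 := by positivity
    exact_mod_cast this
  have hzn : ‖((1 / Real.sqrt 3 : ℝ) : ℂ)‖ = 1 / Real.sqrt 3 := by
    rw [Complex.norm_real, Real.norm_of_nonneg (by positivity)]
  have h0 : w 0 * exp (-3 * I * (w 0 * w 1)) = ((1 / Real.sqrt 3 : ℝ) : ℂ) := by
    rw [← ff_apply_zero, h]
    simp [io]
  have hprod : w 0 * w 1 * E1 (w 0 * w 1) = vs := by
    rw [← ff_prod, h, io_prod m hz0]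
  generalize hu : w 0 * w 1 = u at h0 hprod b2
  have h3 : exp (3 * Real.pi * u) = exp (Real.pi * I) := by
    rw [exp_pi_mul_I]
    have h4 := E1_mul u
    have h5 : 3 * Real.pi * u * E1 u = -2 := by
      rw [mul_assoc, hprod]
      unfold vs
      have := pi_ne
      field_simp
    rw [h5] at h4
    linear_combination -h4
  obtain ⟨n, hn⟩ := exp_eq_exp_iff_exists_int.1 h3
  have hu2 : u = ((2 * n + 1 : ℤ) : ℂ) * (I / 3) := by
    have hp := pi_ne
    have h6 : (3 * Real.pi : ℂ) * u = (3 * Real.pi : ℂ) * (((2 * n + 1 : ℤ) : ℂ) * (I / 3)) := by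
      rw [hn]
      push_cast
      ring
    exact mul_left_cancel₀ (mul_ne_zero (by norm_num) hp) h6
  have hun : ‖u‖ = |((2 * n + 1 : ℤ) : ℝ)| / 3 := by
    rw [hu2, norm_mul, norm_div, Complex.norm_I, Complex.norm_intCast]
    simp
    ring
  have hn2 : 2 * n + 1 = 1 ∨ 2 * n + 1 = -1 := by
    have h7 : |((2 * n + 1 : ℤ) : ℝ)| < 3 / 2 := by
      rw [hun] at b2
      linarith
    rw [abs_lt] at h7
    have h8 : ((2 * n + 1 : ℤ) : ℝ) < (2 : ℤ) := by
      push_cast at h7 ⊢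
      linarith [h7.2]
    have h9 : ((-2 : ℤ) : ℝ) < ((2 * n + 1 : ℤ) : ℝ) := by
      push_cast at h7 ⊢
      linarith [h7.1]
    have h10 := Int.cast_lt.1 h8
    have h11 := Int.cast_lt.1 h9
    omega
  have hun3 : ‖u‖ = 1 / 3 := by
    rw [hun]
    rcases hn2 with h8 | h8 <;> rw [h8] <;> norm_num
  have hww : ‖w 0‖ * ‖w 1‖ = 1 / 3 := by
    rw [← norm_mul, hu, hun3]
  have he := s3_lt_e
  have he0 := Real.exp_pos 1
  rcases hn2 with h8 | h8
  · rw [h8] at hu2
    have h9 : -3 * I * u = ((1 : ℝ) : ℂ) := by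
      rw [hu2]
      push_cast
      linear_combination (-1 : ℂ) * I_mul_I
    rw [h9] at h0
    have h10 := congrArg norm h0
    rw [norm_mul, hzn, ← Complex.ofReal_exp, Complex.norm_real, Real.norm_of_nonneg he0.le,
      eq_div_iff hs.ne'] at h10
    have h11 : 1 / 3 ≤ ‖w 0‖ := by
      rw [← hww]
      nlinarith [norm_nonneg (w 0), norm_nonneg (w 1)]
    have h12 : 1 / 3 * Real.exp 1 * Real.sqrt 3 ≤ 1 := by
      refine le_trans ?_ h10.le
      gcongr
    have h13 : Real.sqrt 3 * Real.sqrt 3 < Real.exp 1 * Real.sqrt 3 :=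
      mul_lt_mul_of_pos_right he hs
    rw [s3_sq] at h13
    linarith
  · rw [h8] at hu2
    have h9 : -3 * I * u = ((-1 : ℝ) : ℂ) := by
      rw [hu2]
      push_cast
      linear_combination I_mul_I
    rw [h9] at h0
    have h10 := congrArg norm h0
    rw [norm_mul, hzn, ← Complex.ofReal_exp, Complex.norm_real,
      Real.norm_of_nonneg (Real.exp_pos _).le, eq_div_iff hs.ne', Real.exp_neg] at h10
    have h11 : ‖w 0‖ * Real.sqrt 3 = Real.exp 1 := by
      have h12 : ‖w 0‖ * (Real.exp 1)⁻¹ * Real.sqrt 3 * Real.exp 1 = ‖w 0‖ * Real.sqrt 3 := by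
        field_simp
      rw [← h12, h10, one_mul]
    nlinarith

theorem Ra_pos : 0 < Ra := div_pos (Real.exp_pos _) s3_pos

theorem Ra_lt_Rb : Ra < Rb := by
  unfold Ra Rb
  exact div_lt_div_of_pos_right (Real.exp_lt_exp.2 (by norm_num)) s3_pos

/-- Proof. `Ra = exp (-1) / √3 ≤ 1 / √3 ≤ exp 1 / √3 = Rb`. -/
theorem mid_mem : Ra ≤ 1 / Real.sqrt 3 ∧ 1 / Real.sqrt 3 ≤ Rb := by
  unfold Ra Rb
  constructor
  · exact div_le_div_of_nonneg_right (Real.exp_le_one_iff.2 (by norm_num)) s3_pos.le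
  · exact div_le_div_of_nonneg_right (Real.one_le_exp (by norm_num)) s3_pos.le

private theorem circ_aux (m : ℕ) {z w0 u : ℂ} (hz : z ≠ 0) (hw0 : ‖w0‖ = 1 / Real.sqrt 3)
    (hu : ‖u‖ = 1 / 3) (h0 : w0 * exp (-3 * I * u) = z) (h1 : exp (3 * Real.pi * u) = -1) :
    ∃ w : Fin (m + 2) → ℂ, ∑ i, ‖w i‖ ^ 2 = 2 / 3 ∧ ff m w = io m z := by
  have hs := s3_pos
  have hw0' : w0 ≠ 0 := by
    intro h
    rw [h, norm_zero] at hw0
    have : (0 : ℝ) < 1 / Real.sqrt 3 := by positivity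
    linarith
  have h10 : (1 : Fin (m + 2)) ≠ 0 := by simp
  obtain ⟨w, hw⟩ : ∃ w : Fin (m + 2) → ℂ, w = fun i => if i = 0 then w0 else
    if i = 1 then u / w0 else 0 := ⟨_, rfl⟩
  have e0 : w 0 = w0 := by rw [hw]; simp
  have e1 : w 1 = u / w0 := by rw [hw]; simp
  have e2 : ∀ i, i ≠ 0 → i ≠ 1 → w i = 0 := by
    intro i hi0 hi1
    rw [hw]
    simp [hi0, hi1]
  have eu : w 0 * w 1 = u := by rw [e0, e1, mul_div_cancel₀ _ hw0']
  have hf0 : ff m w 0 = z := by rw [ff_apply_zero, eu, e0, h0]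
  refine ⟨w, ?_, ?_⟩
  · rw [Fin.sum_univ_succ, Fin.sum_univ_succ]
    have h3 : ∑ i : Fin m, ‖w i.succ.succ‖ ^ 2 = 0 := by
      refine Finset.sum_eq_zero fun i _ => ?_
      rw [e2 _ (Fin.succ_ne_zero _) (by
        rw [Ne, ← Fin.succ_zero_eq_one, Fin.succ_inj]
        exact Fin.succ_ne_zero i), norm_zero]
      norm_num
    have h4 : w (Fin.succ 0) = w 1 := rfl
    rw [h3, h4, e0, e1, norm_div, hu, hw0]
    have h5 := s3_sq
    have h6 : (1 / Real.sqrt 3) ^ 2 = 1 / 3 := by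
      rw [div_pow, one_pow, pow_two, h5]
    have h7 : (1 / 3 / (1 / Real.sqrt 3)) ^ 2 = 1 / 3 := by
      rw [div_pow, h6]
      norm_num
    rw [h6, h7]
    norm_num
  · have hf1 : ff m w 1 = vs / z := by
      have h3 := ff_prod m w
      rw [hf0, eu] at h3
      have h4 := E1_mul u
      rw [h1] at h4
      have hp := pi_ne
      have h5 : u * E1 u = vs := by
        have h6 : (3 * Real.pi : ℂ) * (u * E1 u) = (3 * Real.pi : ℂ) * vs := by
          unfold vs
          rw [mul_div_cancel₀ _ (mul_ne_zero (by norm_num) hp)]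
          linear_combination h4
        exact mul_left_cancel₀ (mul_ne_zero (by norm_num) hp) h6
      rw [h5] at h3
      rw [eq_div_iff hz, mul_comm]
      exact h3
    funext i
    by_cases hi0 : i = 0
    · rw [hi0, hf0]
      simp [io]
    · by_cases hi1 : i = 1
      · rw [hi1, hf1]
        unfold io
        rw [if_neg h10, if_pos rfl]
      · rw [ff_apply_ge m w hi0 hi1, e2 i hi0 hi1]
        unfold io
        rw [if_neg hi0, if_neg hi1]

/-- Proof. `‖z‖ = Ra`: `w = (exp 1 * z, w₁, 0, ..)`, `w₁ = (-I/3) / (exp 1 * z)`; then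
`u = w₀ w₁ = - I / 3`,
`w₀ exp (-3 I u) = w₀ exp (-1) = z`, and the product of the first two coordinates of `ff m w` is
`u * E1 u = (exp (- π I) - 1) / (3 π) = -2 / (3 π) = vs` (`ff_prod`, `E1_mul`), so the coordinate
`1` is `vs / z`. `‖w₀‖ = 1 / √3`, `‖w₁‖ = (1/3) √3 = 1 / √3`: the sum of squares is `2/3`.
`‖z‖ = Rb`: `w = (exp (-1) * z, (I/3) / (exp (-1) * z), 0, ..)` in the same way. -/
theorem circ (m : ℕ) {z : ℂ} (hz : ‖z‖ = Ra ∨ ‖z‖ = Rb) :
    ∃ w : Fin (m + 2) → ℂ, ∑ i, ‖w i‖ ^ 2 = 2 / 3 ∧ ff m w = io m z := by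
  have hs := s3_pos
  have hz0 : z ≠ 0 := by
    intro h
    rw [h, norm_zero] at hz
    have h1 := Ra_pos
    have h2 := Ra_lt_Rb
    rcases hz with hz | hz <;> linarith
  have hexp : ∀ x : ℝ, ‖exp (x : ℂ)‖ = Real.exp x := by
    intro x
    rw [Complex.norm_exp, Complex.ofReal_re]
  rcases hz with hz | hz
  · refine circ_aux m (w0 := exp ((1 : ℝ) : ℂ) * z) (u := -(I / 3)) hz0 ?_ ?_ ?_ ?_
    · rw [norm_mul, hexp, hz]
      unfold Ra
      rw [Real.exp_neg]
      have := Real.exp_pos 1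
      field_simp
    · rw [norm_neg, norm_div, Complex.norm_I]
      norm_num
    · have h1 : -3 * I * -(I / 3) = -((1 : ℝ) : ℂ) := by
        push_cast
        linear_combination I_mul_I
      rw [h1, Complex.exp_neg]
      have := Complex.exp_ne_zero ((1 : ℝ) : ℂ)
      field_simp
    · have h1 : 3 * Real.pi * -(I / 3) = -(Real.pi * I) := by ring
      rw [h1, Complex.exp_neg, exp_pi_mul_I]
      norm_num
  · refine circ_aux m (w0 := exp (-((1 : ℝ) : ℂ)) * z) (u := I / 3) hz0 ?_ ?_ ?_ ?_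
    · have h2 : -((1 : ℝ) : ℂ) = ((-1 : ℝ) : ℂ) := by push_cast; ring
      rw [norm_mul, h2, hexp, hz]
      unfold Rb
      rw [Real.exp_neg]
      have := Real.exp_pos 1
      field_simp
    · rw [norm_div, Complex.norm_I]
      norm_num
    · have h1 : -3 * I * (I / 3) = ((1 : ℝ) : ℂ) := by
        push_cast
        linear_combination (-1 : ℂ) * I_mul_I
      rw [h1, Complex.exp_neg]
      have := Complex.exp_ne_zero ((1 : ℝ) : ℂ)
      field_simp
    · have h1 : 3 * Real.pi * (I / 3) = Real.pi * I := by ring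
      rw [h1, exp_pi_mul_I]

end Pool.Agent.FBR
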