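import Mathlib

/-!
# A quantitative Hurwitz theorem in several variables (package FBR4, Mathlib only)
-/

set_option autoImplicit false

namespace Pool.Agent.FBR

open Filter Topology Set

/-- **Slices.** A holomorphic map which is small on a ball has a small Lipschitz constant on the
ball of half the radius (only Cauchy's estimate in one variable).

Proof. Let `x, y ∈ ball x₀ η`, `x ≠ y`, and `g ζ = H (y + ζ • (x - y))`. For `t ∈ [0, 1]` the point
`y + t (x - y)` is in `ball x₀ η` (convex), so `g` is differentiable on `ball t (η / ‖x - y‖)` and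
bounded by `M` there. Cauchy's estimate on every smaller radius
(`Complex.norm_deriv_le_of_forall_mem_sphere_norm_le`) gives `‖g' (t)‖ ≤ M ‖x - y‖ / η` (let the
radius tend to `η / ‖x - y‖`; or use the radius `η / (2 ‖x - y‖)`, which explains the factor `2`).
The mean value inequality on `[0, 1]` for `t ↦ g t` gives the claim. -/
theorem lip_of_bdd {n : ℕ} {x₀ : Fin n → ℂ} {η M : ℝ} (hη : 0 < η)
    {H : (Fin n → ℂ) → (Fin n → ℂ)} (hH : DifferentiableOn ℂ H (Metric.ball x₀ (2 * η)))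
    (hM : ∀ x ∈ Metric.ball x₀ (2 * η), ‖H x‖ ≤ M) {x y : Fin n → ℂ}
    (hx : x ∈ Metric.ball x₀ η) (hy : y ∈ Metric.ball x₀ η) :
    ‖H x - H y‖ ≤ 2 * M / η * ‖x - y‖ := by
  rcases eq_or_ne x y with rfl | hxy
  · simp
  have hL : 0 < ‖x - y‖ := norm_pos_iff.2 (sub_ne_zero.2 hxy)
  set L := ‖x - y‖ with hLdef
  set s : Set ℂ := {ζ | y + ζ • (x - y) ∈ Metric.ball x₀ η} with hs
  have hconv : Convex ℝ s := by
    intro ζ₁ h₁ ζ₂ h₂ a b ha hb hab
    have h3 := (convex_ball x₀ η) h₁ h₂ ha hb hab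
    have h4 : y + (a • ζ₁ + b • ζ₂) • (x - y) =
        a • (y + ζ₁ • (x - y)) + b • (y + ζ₂ • (x - y)) := by
      rw [smul_add, smul_add, add_smul, smul_assoc, smul_assoc]
      have h5 : y = a • y + b • y := by rw [← add_smul, hab, one_smul]
      nth_rewrite 1 [h5]
      abel
    change y + (a • ζ₁ + b • ζ₂) • (x - y) ∈ Metric.ball x₀ η
    rw [h4]
    exact h3
  have hmem : ∀ ζ ∈ s, ∀ w : ℂ, ‖w - ζ‖ ≤ η / (2 * L) →
      y + w • (x - y) ∈ Metric.ball x₀ (2 * η) := by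
    intro ζ hζ w hw
    have h1 : y + w • (x - y) - x₀ = (y + ζ • (x - y) - x₀) + (w - ζ) • (x - y) := by
      rw [sub_smul]
      abel
    have h2 : ‖y + ζ • (x - y) - x₀‖ < η := by
      rw [← dist_eq_norm]
      exact hζ
    have h3 : ‖(w - ζ) • (x - y)‖ ≤ η / 2 := by
      rw [norm_smul]
      calc ‖w - ζ‖ * ‖x - y‖ ≤ η / (2 * L) * L := by
            rw [← hLdef]
            exact mul_le_mul_of_nonneg_right hw hL.le
        _ = η / 2 := by
            field_simp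
    rw [Metric.mem_ball, dist_eq_norm, h1]
    have h4 := norm_add_le (y + ζ • (x - y) - x₀) ((w - ζ) • (x - y))
    linarith
  have hr : 0 < η / (2 * L) := by positivity
  have hdiff : ∀ ζ ∈ s, ∀ w : ℂ, ‖w - ζ‖ ≤ η / (2 * L) →
      DifferentiableAt ℂ (fun ζ : ℂ => H (y + ζ • (x - y))) w := by
    intro ζ hζ w hw
    have h1 := hmem ζ hζ w hw
    have h2 : DifferentiableAt ℂ H (y + w • (x - y)) :=
      hH.differentiableAt (Metric.isOpen_ball.mem_nhds h1)
    exact h2.comp w (by fun_prop)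
  have hderiv : ∀ ζ ∈ s, ‖deriv (fun ζ : ℂ => H (y + ζ • (x - y))) ζ‖ ≤ 2 * M / η * L := by
    intro ζ hζ
    have h1 : DiffContOnCl ℂ (fun ζ : ℂ => H (y + ζ • (x - y)))
        (Metric.ball ζ (η / (2 * L))) := by
      apply DifferentiableOn.diffContOnCl
      intro w hw
      rw [closure_ball _ hr.ne'] at hw
      rw [Metric.mem_closedBall, dist_eq_norm] at hw
      exact (hdiff ζ hζ w hw).differentiableWithinAt
    have h2 := Complex.norm_deriv_le_of_forall_mem_sphere_norm_le hr h1 (C := M) (by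
      intro w hw
      rw [mem_sphere_iff_norm] at hw
      exact hM _ (hmem ζ hζ w hw.le))
    refine h2.trans (le_of_eq ?_)
    field_simp
  have h0 : (0 : ℂ) ∈ s := by
    change y + (0 : ℂ) • (x - y) ∈ Metric.ball x₀ η
    rwa [zero_smul, add_zero]
  have h1 : (1 : ℂ) ∈ s := by
    change y + (1 : ℂ) • (x - y) ∈ Metric.ball x₀ η
    rwa [one_smul, add_sub_cancel]
  have h2 := Convex.norm_image_sub_le_of_norm_deriv_le
    (f := fun ζ : ℂ => H (y + ζ • (x - y))) (s := s) (C := 2 * M / η * L)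
    (fun ζ hζ => hdiff ζ hζ ζ (by rw [sub_self, norm_zero]; exact hr.le)) hderiv hconv h0 h1
  simpa using h2

/-- The local statement.

Proof. Let `A` be the derivative of `F` at `x₀`, `N = ‖A⁻¹‖ + 1`, `c = 1 / (2 N)` and
`ε = 1 / (16 N)`. Choose `η > 0`, `4 η ≤ δ`, such that the closed ball of radius `2 η` around `x₀`
is contained in `U` and `‖F x - F x₀ - A (x - x₀)‖ ≤ ε ‖x - x₀‖` on it. For large `k`
`‖Φ k x - F x‖ ≤ ε η` on this closed ball. So `H x = Φ k x - F x₀ - A (x - x₀)` is bounded by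
`3 ε η` on the ball of radius `2 η`, and `lip_of_bdd` gives: `Φ k` approximates `A` on the ball
`ball x₀ η` with the constant `6 ε < c` (`ApproximatesLinearOn`). By
`ApproximatesLinearOn.surjOn_closedBall_of_nonlinearRightInverse` (or
`ApproximatesLinearOn.open_image`-type lemmas; use `A.toNonlinearRightInverse`, norm
`‖A.symm‖`) `Φ k` maps `closedBall x₀ (η / 2)` onto a set which contains
`closedBall (Φ k x₀) (c' η)`, `c' = (1 / N - 6 ε) / 2 > 1 / (4 N)`. For `x` near `x₀` (a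
neighbourhood which does not depend on `k`):
`‖F x - Φ k x₀‖ ≤ ‖F x - F x₀‖ + ε η ≤ c' η` as soon as `‖F x - F x₀‖ ≤ η / (8 N)` and
`‖x - x₀‖ ≤ η`. The preimage `w ∈ closedBall x₀ (η / 2)` has `‖w - x‖ ≤ η / 2 + η ≤ δ`. -/
theorem hit_local {n : ℕ} {U : Set (Fin n → ℂ)} (hU : IsOpen U)
    {F : (Fin n → ℂ) → (Fin n → ℂ)} {Φ : ℕ → (Fin n → ℂ) → (Fin n → ℂ)}
    (hΦ : ∀ k, Differentiable ℂ (Φ k))
    (hlim : ∀ K ⊆ U, IsCompact K → TendstoUniformlyOn Φ F atTop K) {x₀ : Fin n → ℂ} (hx : x₀ ∈ U)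
    {A : (Fin n → ℂ) ≃L[ℂ] (Fin n → ℂ)}
    (hA : HasFDerivAt F (A : (Fin n → ℂ) →L[ℂ] (Fin n → ℂ)) x₀) (hF : ContinuousAt F x₀) {δ : ℝ}
    (hδ : 0 < δ) :
    ∃ V ∈ 𝓝 x₀, ∀ᶠ k in atTop, ∀ x ∈ V, ∃ w, ‖w - x‖ ≤ δ ∧ Φ k w = F x := by
  set N : ℝ := ‖(A.symm : (Fin n → ℂ) →L[ℂ] (Fin n → ℂ))‖ + 1 with hN
  have hN0 : 0 < N := by positivity
  have hε0 : 0 < 1 / (16 * N) := by positivity
  -- the derivative
  have hd := hA.isLittleO.def hε0
  obtain ⟨η₁, hη₁, hd'⟩ := Metric.eventually_nhds_iff_ball.1 hd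
  obtain ⟨η₂, hη₂, hU'⟩ := Metric.isOpen_iff.1 hU x₀ hx
  set η : ℝ := min (δ / 4) (min (η₁ / 4) (η₂ / 4)) with hη
  have hη0 : 0 < η := by positivity
  have hηδ : 4 * η ≤ δ := by
    have := min_le_left (δ / 4) (min (η₁ / 4) (η₂ / 4))
    linarith
  have hη1 : 2 * η < η₁ := by
    have h1 := (min_le_right (δ / 4) (min (η₁ / 4) (η₂ / 4))).trans (min_le_left _ _)
    have h2 : η ≤ η₁ / 4 := h1
    linarith
  have hη2 : 2 * η < η₂ := by
    have h1 := (min_le_right (δ / 4) (min (η₁ / 4) (η₂ / 4))).trans (min_le_right _ _)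
    have h2 : η ≤ η₂ / 4 := h1
    linarith
  have hK : Metric.closedBall x₀ (2 * η) ⊆ U :=
    (Metric.closedBall_subset_ball hη2).trans hU'
  have hunif := Metric.tendstoUniformlyOn_iff.1
    (hlim _ hK (isCompact_closedBall x₀ (2 * η))) (1 / (16 * N) * η) (by positivity)
  have hV1 : {x | ‖F x - F x₀‖ ≤ η / (8 * N)} ∈ 𝓝 x₀ := by
    have h1 := Metric.continuousAt_iff'.1 hF (η / (8 * N)) (by positivity)
    filter_upwards [h1] with x hx
    rw [dist_eq_norm] at hx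
    exact hx.le
  refine ⟨{x | ‖F x - F x₀‖ ≤ η / (8 * N)} ∩ Metric.closedBall x₀ η,
    inter_mem hV1 (Metric.closedBall_mem_nhds x₀ hη0), ?_⟩
  filter_upwards [hunif] with k hk
  rintro x ⟨hx1, hx2⟩
  -- the remainder
  set H : (Fin n → ℂ) → (Fin n → ℂ) := fun x => Φ k x - F x₀ - A (x - x₀) with hH
  have hHd : DifferentiableOn ℂ H (Metric.ball x₀ (2 * η)) := by
    have h1 : Differentiable ℂ H := by
      have h2 := hΦ k
      have h3 : Differentiable ℂ fun x : Fin n → ℂ => A (x - x₀) :=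
        (A : (Fin n → ℂ) →L[ℂ] (Fin n → ℂ)).differentiable.comp
          (differentiable_id.sub_const x₀)
      exact (h2.sub_const _).sub h3
    exact h1.differentiableOn
  have hHb : ∀ y ∈ Metric.ball x₀ (2 * η), ‖H y‖ ≤ 3 * (1 / (16 * N)) * η := by
    intro y hy
    have h1 := hk y (Metric.ball_subset_closedBall hy)
    have h2 := hd' y (Metric.ball_subset_ball hη1.le hy)
    rw [Metric.mem_ball, dist_eq_norm] at hy
    rw [dist_comm, dist_eq_norm] at h1
    have h3 : H y = (Φ k y - F y) + (F y - F x₀ - A (y - x₀)) := by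
      rw [hH]
      simp only
      abel
    have h4 : ‖F y - F x₀ - A (y - x₀)‖ ≤ 1 / (16 * N) * ‖y - x₀‖ := h2
    have h5 : 1 / (16 * N) * ‖y - x₀‖ ≤ 1 / (16 * N) * (2 * η) :=
      mul_le_mul_of_nonneg_left hy.le hε0.le
    rw [h3]
    have h6 := norm_add_le (Φ k y - F y) (F y - F x₀ - A (y - x₀))
    linarith
  have hc0 : (0 : ℝ) ≤ 6 * (1 / (16 * N)) := by positivity
  have happ : ApproximatesLinearOn (Φ k) (A : (Fin n → ℂ) →L[ℂ] (Fin n → ℂ))
      (Metric.ball x₀ η) ⟨6 * (1 / (16 * N)), hc0⟩ := by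
    intro y hy z hz
    have h1 := lip_of_bdd hη0 hHd hHb hy hz
    have h2 : H y - H z = Φ k y - Φ k z - A (y - z) := by
      rw [hH]
      simp only [map_sub]
      abel
    rw [h2] at h1
    have h3 : 2 * (3 * (1 / (16 * N)) * η) / η = 6 * (1 / (16 * N)) := by
      field_simp
      norm_num
    rw [h3] at h1
    exact h1
  let B : ContinuousLinearMap.NonlinearRightInverse
      (A : (Fin n → ℂ) →L[ℂ] (Fin n → ℂ)) :=
    { toFun := A.symm
      nnnorm := ⟨N, hN0.le⟩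
      bound' := fun y => by
        have h1 := (A.symm : (Fin n → ℂ) →L[ℂ] (Fin n → ℂ)).le_opNorm y
        have h2 : ‖(A.symm : (Fin n → ℂ) →L[ℂ] (Fin n → ℂ))‖ * ‖y‖ ≤ N * ‖y‖ :=
          mul_le_mul_of_nonneg_right (by rw [hN]; linarith) (norm_nonneg _)
        exact h1.trans h2
      right_inv' := fun y => A.apply_symm_apply y }
  have hsurj := happ.surjOn_closedBall_of_nonlinearRightInverse B (ε := η / 2) (b := x₀)
    (by positivity) (Metric.closedBall_subset_ball (by linarith))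
  have hin : F x ∈ Metric.closedBall (Φ k x₀)
      (((B.nnnorm : ℝ)⁻¹ - (⟨6 * (1 / (16 * N)), hc0⟩ : NNReal)) * (η / 2)) := by
    have h1 := hk x₀ (Metric.mem_closedBall_self (by positivity))
    rw [dist_eq_norm] at h1
    rw [Metric.mem_closedBall, dist_eq_norm]
    have h2 : F x - Φ k x₀ = (F x - F x₀) + (F x₀ - Φ k x₀) := by abel
    have h3 : ((B.nnnorm : ℝ)⁻¹ - ((⟨6 * (1 / (16 * N)), hc0⟩ : NNReal) : ℝ)) * (η / 2) =
        5 * η / (16 * N) := by
      change (N⁻¹ - 6 * (1 / (16 * N))) * (η / 2) = 5 * η / (16 * N)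
      field_simp
      ring
    rw [h3, h2]
    have h4 := norm_add_le (F x - F x₀) (F x₀ - Φ k x₀)
    have h5 : ‖F x - F x₀‖ ≤ η / (8 * N) := hx1
    have h6 : η / (8 * N) + 1 / (16 * N) * η ≤ 5 * η / (16 * N) := by
      have h7 : 5 * η / (16 * N) - (η / (8 * N) + 1 / (16 * N) * η) = 2 * η / (16 * N) := by
        field_simp
        ring
      have h8 : 0 ≤ 2 * η / (16 * N) := by positivity
      linarith
    linarith
  obtain ⟨w, hw, hw'⟩ := hsurj hin
  refine ⟨w, ?_, hw'⟩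
  rw [Metric.mem_closedBall, dist_eq_norm] at hw hx2
  have h1 : w - x = (w - x₀) - (x - x₀) := by abel
  rw [h1]
  have h2 := norm_sub_le (w - x₀) (x - x₀)
  linarith

/-- **Compact sets of values are attained.** Proof. `hit_local` at every point of `K`, finitely
many of the neighbourhoods cover `K` (`IsCompact.elim_nhds_subcover`), `Filter.eventually_all_finset`.
-/
theorem hit {n : ℕ} {U : Set (Fin n → ℂ)} (hU : IsOpen U) {F : (Fin n → ℂ) → (Fin n → ℂ)}
    {Φ : ℕ → (Fin n → ℂ) → (Fin n → ℂ)} (hΦ : ∀ k, Differentiable ℂ (Φ k))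
    (hlim : ∀ K ⊆ U, IsCompact K → TendstoUniformlyOn Φ F atTop K) {K : Set (Fin n → ℂ)}
    (hK : IsCompact K) (hKU : K ⊆ U)
    (hA : ∀ x ∈ K, ∃ A : (Fin n → ℂ) ≃L[ℂ] (Fin n → ℂ),
      HasFDerivAt F (A : (Fin n → ℂ) →L[ℂ] (Fin n → ℂ)) x) {δ : ℝ} (hδ : 0 < δ) :
    ∀ᶠ k in atTop, ∀ x ∈ K, ∃ w, ‖w - x‖ ≤ δ ∧ Φ k w = F x := by
  classical
  have h1 : ∀ x ∈ K, ∃ V ∈ 𝓝 x, ∀ᶠ k in atTop, ∀ y ∈ V, ∃ w, ‖w - y‖ ≤ δ ∧ Φ k w = F y := by
    intro x hx
    obtain ⟨A, hA'⟩ := hA x hx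
    exact hit_local hU hΦ hlim (hKU hx) hA' hA'.continuousAt hδ
  choose! V hV hV' using h1
  obtain ⟨t, ht, hcov⟩ := hK.elim_nhds_subcover V hV
  have h2 := (Filter.eventually_all_finset t).2 fun x hx => hV' x (ht x hx)
  filter_upwards [h2] with k hk x hx
  obtain ⟨y, hy, hxy⟩ := mem_iUnion₂.1 (hcov hx)
  exact hk y hy x hxy

end Pool.Agent.FBR
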