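import Pool.Agent.FBR.Map

/-!
# The derivative of the univalent map is invertible (package FBR3)
-/

set_option autoImplicit false

namespace Pool.Agent.FBR

open Complex Set

/-- Proof. `ff m` is continuously differentiable: the coordinates are products of exponentials,
`E1` (an entire function, `Differentiable.contDiff`), and coordinates: `contDiff_pi`; so
`ContDiff.hasStrictFDerivAt` (`ContDiffAt.hasStrictFDerivAt`, `n = 1`).

The derivative `D = fderiv ℂ (ff m) w` is injective: let `D h = 0`. The coordinates `i ≥ 2` give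
`h i = 0`. The function `z ↦ ff m z 0 * ff m z 1 = z₀ z₁ E1 (z₀ z₁)
= (exp (3 π z₀ z₁) - 1) / (3 π)` (`ff_prod`, `E1_mul`) has at `w` in the direction `h` the
derivative `exp (3 π w₀ w₁) * (w₀ h₁ + w₁ h₀)` on the one hand and
`(D h) 0 * .. + .. * (D h) 1 = 0` on the other (product rule), so `du := w₀ h₁ + w₁ h₀ = 0`. The
coordinate `0` of `D h` is `h₀ exp (-3 I u) + w₀ exp (..) (-3 I) du`, so `h₀ = 0`; the coordinate
`1` is `h₁ b (u) + w₁ b' (u) du` with `b (u) = exp (3 I u) E1 u ≠ 0` (`E1_ne`, `uball_bd`), so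
`h₁ = 0`. An injective endomorphism of `Fin (m + 2) → ℂ` is a continuous linear equivalence
(`LinearEquiv.ofInjectiveEndo`, `LinearEquiv.toContinuousLinearEquiv`). (It is convenient to
compute directions with `lineDeriv` or with `HasDerivAt` of `t ↦ ff m (w + t • h) i` at `0`.) -/
theorem ff_strict (m : ℕ) {w : Fin (m + 2) → ℂ} (hw : w ∈ uball (m + 2)) :
    ∃ A : (Fin (m + 2) → ℂ) ≃L[ℂ] (Fin (m + 2) → ℂ),
      HasStrictFDerivAt (ff m) (A : (Fin (m + 2) → ℂ) →L[ℂ] (Fin (m + 2) → ℂ)) w := by
  have hcd : ContDiff ℂ 1 (ff m) := by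
    have hE : ContDiff ℂ 1 E1 := E1_diff.contDiff
    have h0 : ContDiff ℂ 1 fun z : Fin (m + 2) → ℂ => z 0 := contDiff_apply ℂ ℂ 0
    have h1 : ContDiff ℂ 1 fun z : Fin (m + 2) → ℂ => z 1 := contDiff_apply ℂ ℂ 1
    have h01 : ContDiff ℂ 1 fun z : Fin (m + 2) → ℂ => z 0 * z 1 := h0.mul h1
    rw [contDiff_pi]
    intro i
    by_cases hi0 : i = 0
    · subst hi0
      have h2 : (fun z : Fin (m + 2) → ℂ => ff m z 0) =
          fun z => z 0 * exp (-3 * I * (z 0 * z 1)) := funext fun z => ff_apply_zero m z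
      rw [h2]
      exact h0.mul (contDiff_const.mul h01).cexp
    · by_cases hi1 : i = 1
      · subst hi1
        have h2 : (fun z : Fin (m + 2) → ℂ => ff m z 1) =
            fun z => z 1 * (exp (3 * I * (z 0 * z 1)) * E1 (z 0 * z 1)) :=
          funext fun z => ff_apply_one m z
        rw [h2]
        exact h1.mul ((contDiff_const.mul h01).cexp.mul (hE.comp h01))
      · have h2 : (fun z : Fin (m + 2) → ℂ => ff m z i) = fun z => z i :=
          funext fun z => ff_apply_ge m z hi0 hi1
        rw [h2]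
        exact contDiff_apply ℂ ℂ i
  have hst : HasStrictFDerivAt (ff m) (fderiv ℂ (ff m) w) w :=
    hcd.contDiffAt.hasStrictFDerivAt one_ne_zero
  have hinj : Function.Injective (fderiv ℂ (ff m) w) := by
    rw [injective_iff_map_eq_zero]
    intro h hh
    have hline : HasDerivAt (fun t : ℂ => w + t • h) h 0 := by
      have h1 : HasDerivAt (fun t : ℂ => t • h) ((1 : ℂ) • h) 0 := (hasDerivAt_id 0).smul_const h
      rw [one_smul] at h1
      exact h1.const_add w
    have hf0 : HasFDerivAt (ff m) (fderiv ℂ (ff m) w) (w + (0 : ℂ) • h) := by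
      rw [zero_smul, add_zero]
      exact hst.hasFDerivAt
    have hcurve : HasDerivAt (fun t : ℂ => ff m (w + t • h)) 0 0 := by
      have h1 := hf0.comp_hasDerivAt (0 : ℂ) hline
      rw [hh] at h1
      exact h1
    have hco : ∀ i, HasDerivAt (fun t : ℂ => ff m (w + t • h) i) 0 0 := by
      intro i
      exact (hasDerivAt_pi.1 hcurve) i
    have hl : ∀ i, HasDerivAt (fun t : ℂ => w i + t * h i) (h i) 0 := by
      intro i
      exact (hasDerivAt_pi.1 hline) i
    set u : ℂ → ℂ := fun t => (w 0 + t * h 0) * (w 1 + t * h 1) with hu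
    have hdu : HasDerivAt u (h 0 * w 1 + w 0 * h 1) 0 := by
      have h1 := (hl 0).mul (hl 1)
      have h2 : h 0 * (w 1 + 0 * h 1) + (w 0 + 0 * h 0) * h 1 = h 0 * w 1 + w 0 * h 1 := by ring
      rw [h2] at h1
      exact h1
    have hu0 : u 0 = w 0 * w 1 := by simp [hu]
    obtain ⟨-, -, hb⟩ := uball_bd m hw
    have hpi : (3 * Real.pi : ℂ) ≠ 0 := by
      have h1 : (Real.pi : ℂ) ≠ 0 := by exact_mod_cast Real.pi_ne_zero
      exact mul_ne_zero (by norm_num) h1
    have hdu0 : h 0 * w 1 + w 0 * h 1 = 0 := by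
      have h1 : HasDerivAt (fun t : ℂ => 3 * Real.pi * (ff m (w + t • h) 0 * ff m (w + t • h) 1))
          0 0 := by
        have h2 := ((hco 0).mul (hco 1)).const_mul (3 * Real.pi : ℂ)
        simpa using h2
      have h2 : (fun t : ℂ => 3 * Real.pi * (ff m (w + t • h) 0 * ff m (w + t • h) 1)) =
          fun t => exp (3 * Real.pi * u t) - 1 := by
        funext t
        rw [ff_prod, ← E1_mul]
        simp only [Pi.add_apply, Pi.smul_apply, smul_eq_mul, hu]
        ring
      rw [h2] at h1
      have h3 : HasDerivAt (fun t : ℂ => exp (3 * Real.pi * u t) - 1)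
          (exp (3 * Real.pi * u 0) * (3 * Real.pi * (h 0 * w 1 + w 0 * h 1))) 0 :=
        ((hdu.const_mul (3 * Real.pi : ℂ)).cexp).sub_const 1
      have h4 := h3.unique h1
      exact (mul_eq_zero.1 ((mul_eq_zero.1 h4).resolve_left (exp_ne_zero _))).resolve_left hpi
    have hh0 : h 0 = 0 := by
      have h1 : (fun t : ℂ => ff m (w + t • h) 0) =
          fun t => (w 0 + t * h 0) * exp (-3 * I * u t) := by
        funext t
        rw [ff_apply_zero]
        simp only [Pi.add_apply, Pi.smul_apply, smul_eq_mul, hu]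
      have h2 := hco 0
      rw [h1] at h2
      have h3 := (hl 0).mul ((hdu.const_mul (-3 * I)).cexp)
      have h4 := h3.unique h2
      rw [hdu0] at h4
      simp only [mul_zero, add_zero] at h4
      exact (mul_eq_zero.1 h4).resolve_right (exp_ne_zero _)
    have hh1 : h 1 = 0 := by
      have h1 : (fun t : ℂ => ff m (w + t • h) 1) =
          fun t => (w 1 + t * h 1) * (exp (3 * I * u t) * E1 (u t)) := by
        funext t
        rw [ff_apply_one]
        simp only [Pi.add_apply, Pi.smul_apply, smul_eq_mul, hu]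
      have h2 := hco 1
      rw [h1] at h2
      have hE : HasDerivAt (fun t => E1 (u t)) (deriv E1 (u 0) * (h 0 * w 1 + w 0 * h 1)) 0 :=
        (E1_diff (u 0)).hasDerivAt.comp (0 : ℂ) hdu
      have h3 := (hl 1).mul (((hdu.const_mul (3 * I)).cexp).mul hE)
      have h4 := h3.unique h2
      rw [hdu0] at h4
      simp only [mul_zero, add_zero, zero_mul] at h4
      have h5 : E1 (u 0) ≠ 0 := by
        apply E1_ne
        rw [hu0]
        linarith
      exact (mul_eq_zero.1 h4).resolve_right (mul_ne_zero (exp_ne_zero _) h5)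
    funext i
    by_cases hi0 : i = 0
    · rw [hi0, hh0]
      rfl
    · by_cases hi1 : i = 1
      · rw [hi1, hh1]
        rfl
      · have h1 : (fun t : ℂ => ff m (w + t • h) i) = fun t => w i + t * h i := by
          funext t
          rw [ff_apply_ge m _ hi0 hi1]
          rfl
        have h2 := hco i
        rw [h1] at h2
        exact (hl i).unique h2
  let A : (Fin (m + 2) → ℂ) ≃L[ℂ] (Fin (m + 2) → ℂ) :=
    (LinearEquiv.ofInjectiveEndo (fderiv ℂ (ff m) w : (Fin (m + 2) → ℂ) →ₗ[ℂ] (Fin (m + 2) → ℂ))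
      hinj).toContinuousLinearEquiv
  refine ⟨A, ?_⟩
  have hA : (A : (Fin (m + 2) → ℂ) →L[ℂ] (Fin (m + 2) → ℂ)) = fderiv ℂ (ff m) w := by
    ext x i
    rfl
  rw [hA]
  exact hst

end Pool.Agent.FBR
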