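import Pool.Agent.FBR.Hit
import Pool.Agent.FBR.Core
import Pool.Agent.FBR.Jac

/-!
# The univalent map is not a limit (package FBR11)
-/

set_option autoImplicit false

namespace Pool.Agent.FBR

open Filter Topology Set Complex

private theorem sq_two_thirds : Real.sqrt (2 / 3) ^ 2 = 2 / 3 := Real.sq_sqrt (by norm_num)

/-- **Theorem T.** Proof. Let `ρ₁ = √(2/3) < ρ₂ < ρ`, `K = cball (m + 2) ρ₁`, compact, contained in
`oball (m + 2) ρ ⊆ uball (m + 2)`, and `δ` from `exists_thick` (for `ρ₁ < ρ₂`). By `hit`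
(`U = oball (m + 2) ρ`, `F = ff m`, `ff_strict`) for large `k` every value `ff m x`, `x ∈ K`, is
`Φ k w` with `w ∈ cball (m + 2) ρ₂`. So by `circ` the hypothesis `hcirc` of `ann_in_image` holds for
`Φ k` and `ρ₂`, and there is `w ∈ cball (m + 2) ρ₂` with `Φ k w = io m (1 / √3)` (`mid_mem`). On the
compact set `cball (m + 2) ρ₂ ⊆ uball (m + 2)` the continuous function
`‖ff m w - io m (1 / √3)‖` has no zero (`gap`), so it is `≥ c > 0`; but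
`‖Φ k w - ff m w‖ < c` for large `k`, a contradiction. -/
theorem no_limit (m : ℕ) {ρ : ℝ} (h0 : 0 < ρ) (h1 : ρ ≤ 1) (h2 : 2 / 3 < ρ ^ 2)
    {Φ : ℕ → (Fin (m + 2) → ℂ) → (Fin (m + 2) → ℂ)} (hd : ∀ k, Differentiable ℂ (Φ k))
    (hi : ∀ k, Function.Injective (Φ k)) (hr : ∀ k, RationalInverse (Φ k))
    (hlim : ∀ K ⊆ oball (m + 2) ρ, IsCompact K → TendstoUniformlyOn Φ (ff m) atTop K) :
    False := by
  have hs : Real.sqrt (2 / 3) < ρ := by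
    rw [Real.sqrt_lt' h0]
    exact h2
  obtain ⟨ρ₂, ha, hb⟩ := exists_between hs
  have hs0 : (0 : ℝ) ≤ Real.sqrt (2 / 3) := Real.sqrt_nonneg _
  have hρ₂ : 0 ≤ ρ₂ := hs0.trans ha.le
  obtain ⟨δ, hδ, hthick⟩ := exists_thick (n := m + 2) hs0 ha
  have hsub : oball (m + 2) ρ ⊆ uball (m + 2) := by
    intro z hz
    have hz' : ∑ i, ‖z i‖ ^ 2 < ρ ^ 2 := hz
    have : ρ ^ 2 ≤ 1 := by nlinarith
    exact lt_of_lt_of_le hz' this
  have hK : IsCompact (cball (m + 2) (Real.sqrt (2 / 3))) := isCompact_cball _ _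
  have hKU : cball (m + 2) (Real.sqrt (2 / 3)) ⊆ oball (m + 2) ρ := cball_subset_oball hs0 hs
  have hA : ∀ x ∈ cball (m + 2) (Real.sqrt (2 / 3)),
      ∃ A : (Fin (m + 2) → ℂ) ≃L[ℂ] (Fin (m + 2) → ℂ),
        HasFDerivAt (ff m) (A : (Fin (m + 2) → ℂ) →L[ℂ] (Fin (m + 2) → ℂ)) x := by
    intro x hx
    obtain ⟨A, hA⟩ := ff_strict m (hsub (hKU hx))
    exact ⟨A, hA.hasFDerivAt⟩
  have hhit := hit (isOpen_oball (m + 2) ρ) hd hlim hK hKU hA hδ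
  have hK₂ : IsCompact (cball (m + 2) ρ₂) := isCompact_cball _ _
  have hK₂U : cball (m + 2) ρ₂ ⊆ oball (m + 2) ρ := cball_subset_oball hρ₂ hb
  have hcont : ContinuousOn (fun w => ‖ff m w - io m ((1 / Real.sqrt 3 : ℝ) : ℂ)‖)
      (cball (m + 2) ρ₂) :=
    (((ff_diff m).continuous.sub continuous_const).norm).continuousOn
  have hne : (cball (m + 2) ρ₂).Nonempty := ⟨0, by
    change ∑ i, ‖(0 : Fin (m + 2) → ℂ) i‖ ^ 2 ≤ ρ₂ ^ 2
    simp [sq_nonneg]⟩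
  obtain ⟨w₀, hw₀, hmin⟩ := hK₂.exists_isMinOn hne hcont
  have hc : 0 < ‖ff m w₀ - io m ((1 / Real.sqrt 3 : ℝ) : ℂ)‖ :=
    norm_pos_iff.2 (sub_ne_zero.2 (gap m (hsub (hK₂U hw₀))))
  have hunif := (Metric.tendstoUniformlyOn_iff.1 (hlim _ hK₂U hK₂)) _ hc
  obtain ⟨k, hk1, hk2⟩ := (hhit.and hunif).exists
  have hcirc : ∀ z : ℂ, ‖z‖ = Ra ∨ ‖z‖ = Rb →
      ∃ w ∈ cball (m + 2) ρ₂, Φ k w = io m z := by
    intro z hz
    obtain ⟨x, hx1, hx2⟩ := circ m hz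
    have hxK : x ∈ cball (m + 2) (Real.sqrt (2 / 3)) := by
      change ∑ i, ‖x i‖ ^ 2 ≤ Real.sqrt (2 / 3) ^ 2
      rw [hx1, sq_two_thirds]
    obtain ⟨w, hw1, hw2⟩ := hk1 x hxK
    exact ⟨w, hthick x hxK w hw1, hw2.trans hx2⟩
  have hmid : ‖((1 / Real.sqrt 3 : ℝ) : ℂ)‖ = 1 / Real.sqrt 3 := by
    rw [Complex.norm_real, Real.norm_of_nonneg (by positivity)]
  obtain ⟨w, hw1, hw2⟩ := ann_in_image hρ₂ (hd k) (hi k) (hr k) hcirc
    (z := ((1 / Real.sqrt 3 : ℝ) : ℂ)) (by rw [hmid]; exact mid_mem.1)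
    (by rw [hmid]; exact mid_mem.2)
  have h3 := hk2 w hw1
  have h4 := hmin hw1
  rw [dist_eq_norm, hw2] at h3
  exact absurd h3 (not_lt.2 h4)

/-- **The statement for the dilations.** Proof. Put `Φ k w = r • Ψ k (r⁻¹ • w)`. It is entire and
injective, `RationalInverse` by `rational_scale`, and for a compact set `K ⊆ oball (m + 2) r` the
set `{r⁻¹ • w | w ∈ K}` is a compact subset of the unit ball, on which
`Ψ k z → r⁻¹ • ff m (r • z)`; so `Φ k w → ff m w` uniformly on `K`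
(`‖Φ k w - ff m w‖ = r ‖Ψ k (r⁻¹ • w) - r⁻¹ • ff m (r • r⁻¹ • w)‖`). `no_limit` with `ρ = r`. -/
theorem no_limit_dil (m : ℕ) {r : ℝ} (h0 : 0 < r) (h1 : r < 1) (h2 : 2 / 3 < r ^ 2)
    {Ψ : ℕ → (Fin (m + 2) → ℂ) → (Fin (m + 2) → ℂ)}
    (hΨ : ∀ k, Differentiable ℂ (Ψ k) ∧ Function.Injective (Ψ k) ∧ RationalInverse (Ψ k))
    (hlim : ∀ K : Set (Fin (m + 2) → ℂ), K ⊆ {z : Fin (m + 2) → ℂ | ∑ i, ‖z i‖ ^ 2 < 1} →
      IsCompact K →
      TendstoUniformlyOn Ψ (fun z => ((r : ℂ)⁻¹) • ff m ((r : ℂ) • z)) atTop K) :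
    False := by
  have hr0 : (r : ℂ) ≠ 0 := by exact_mod_cast h0.ne'
  refine no_limit m h0 h1.le h2 (Φ := fun k w => (r : ℂ) • Ψ k ((r : ℂ)⁻¹ • w)) ?_ ?_ ?_ ?_
  · intro k
    have h3 : Differentiable ℂ (fun w : Fin (m + 2) → ℂ => (r : ℂ)⁻¹ • w) :=
      differentiable_id.const_smul ((r : ℂ)⁻¹)
    exact ((hΨ k).1.comp h3).const_smul (r : ℂ)
  · intro k x y hxy
    have h3 : Ψ k ((r : ℂ)⁻¹ • x) = Ψ k ((r : ℂ)⁻¹ • y) := smul_right_injective _ hr0 hxy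
    exact smul_right_injective _ (inv_ne_zero hr0) ((hΨ k).2.1 h3)
  · intro k
    exact rational_scale h0 (hΨ k).2.2
  · intro K hK hKc
    have hK'c : IsCompact ((fun w : Fin (m + 2) → ℂ => (r : ℂ)⁻¹ • w) '' K) :=
      hKc.image (continuous_const_smul ((r : ℂ)⁻¹))
    have hK' : ((fun w : Fin (m + 2) → ℂ => (r : ℂ)⁻¹ • w) '' K) ⊆
        {z : Fin (m + 2) → ℂ | ∑ i, ‖z i‖ ^ 2 < 1} := by
      rintro _ ⟨w, hw, rfl⟩
      have h3 : ∑ i, ‖w i‖ ^ 2 < r ^ 2 := hK hw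
      have h4 : ∑ i, ‖((r : ℂ)⁻¹ • w) i‖ ^ 2 = (r ^ 2)⁻¹ * ∑ i, ‖w i‖ ^ 2 := by
        rw [Finset.mul_sum]
        refine Finset.sum_congr rfl fun i _ => ?_
        rw [Pi.smul_apply, smul_eq_mul, norm_mul, mul_pow, norm_inv, Complex.norm_real,
          Real.norm_of_nonneg h0.le, inv_pow]
      change ∑ i, ‖((r : ℂ)⁻¹ • w) i‖ ^ 2 < 1
      rw [h4]
      have h5 : (0 : ℝ) < r ^ 2 := by positivity
      rw [inv_mul_lt_iff₀ h5]
      simpa using h3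
    have h6 := hlim _ hK' hK'c
    rw [Metric.tendstoUniformlyOn_iff] at h6 ⊢
    intro ε hε
    filter_upwards [h6 (ε / r) (div_pos hε h0)] with k hk w hw
    have h7 := hk _ ⟨w, hw, rfl⟩
    have h8 : ff m w - (r : ℂ) • Ψ k ((r : ℂ)⁻¹ • w) =
        (r : ℂ) • ((r : ℂ)⁻¹ • ff m ((r : ℂ) • (r : ℂ)⁻¹ • w) - Ψ k ((r : ℂ)⁻¹ • w)) := by
      rw [smul_sub, smul_smul, smul_smul, mul_inv_cancel₀ hr0, one_smul, one_smul]
    rw [dist_eq_norm] at h7 ⊢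
    rw [h8, norm_smul, Complex.norm_real, Real.norm_of_nonneg h0.le]
    calc r * ‖(r : ℂ)⁻¹ • ff m ((r : ℂ) • (r : ℂ)⁻¹ • w) - Ψ k ((r : ℂ)⁻¹ • w)‖
        < r * (ε / r) := by
          refine mul_lt_mul_of_pos_left ?_ h0
          exact h7
      _ = ε := by field_simp

end Pool.Agent.FBR
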