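import Pool.Agent.FBR.Defs

/-!
# The univalent map (package FBR1)
-/

set_option autoImplicit false

namespace Pool.Agent.FBR

open Complex Set

/-- Proof. `dslope` (`sub_smul_dslope`: `(b - a) • dslope f a b = f b - f a`). -/
theorem E1_mul (u : ℂ) : 3 * Real.pi * u * E1 u = exp (3 * Real.pi * u) - 1 := by
  have h := sub_smul_dslope Complex.exp 0 (3 * Real.pi * u)
  rw [sub_zero, smul_eq_mul, Complex.exp_zero] at h
  exact h

/-- Proof. `dslope_same`, `deriv exp 0 = 1`. -/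
theorem E1_zero : E1 0 = 1 := by
  unfold E1
  rw [mul_zero, dslope_same, Complex.deriv_exp, Complex.exp_zero]

/-- Proof. `dslope exp 0` is differentiable: `Complex.differentiableOn_dslope` with `s = univ`
(`isOpen_univ.mem_nhds`). -/
theorem E1_diff : Differentiable ℂ E1 := by
  have h : DifferentiableOn ℂ (dslope Complex.exp 0) univ :=
    (Complex.differentiableOn_dslope (isOpen_univ.mem_nhds (mem_univ _))).2
      Complex.differentiable_exp.differentiableOn
  exact (differentiableOn_univ.1 h).comp (differentiable_id.const_mul _)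

/-- Proof. `u = 0`: `E1_zero`. Otherwise `E1 u = 0` gives `exp (3 π u) = 1` (`E1_mul`), so
`3 π u = k (2 π I)` with an integer `k ≠ 0` (`Complex.exp_eq_one_iff`), and `‖u‖ = 2 |k| / 3 ≥ 2/3`.
-/
theorem E1_ne {u : ℂ} (hu : ‖u‖ < 2 / 3) : E1 u ≠ 0 := by
  intro h0
  have h1 := E1_mul u
  rw [h0, mul_zero] at h1
  have h2 : exp (3 * Real.pi * u) = 1 := by
    linear_combination -h1
  obtain ⟨k, hk⟩ := Complex.exp_eq_one_iff.1 h2
  have hpi : (Real.pi : ℂ) ≠ 0 := by exact_mod_cast Real.pi_ne_zero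
  have hu' : u = (k : ℂ) * (2 / 3 * I) := by
    have h3 : (3 * Real.pi : ℂ) * u = 3 * Real.pi * ((k : ℂ) * (2 / 3 * I)) := by
      rw [hk]
      ring
    exact mul_left_cancel₀ (mul_ne_zero three_ne_zero hpi) h3
  by_cases hk0 : k = 0
  · rw [hk0, Int.cast_zero, zero_mul] at hu'
    rw [hu', E1_zero] at h0
    exact one_ne_zero h0
  · have h4 : ‖u‖ = |(k : ℝ)| * (2 / 3) := by
      rw [hu', norm_mul, norm_mul, Complex.norm_I, mul_one, Complex.norm_intCast]
      norm_num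
    have h5 : (1 : ℝ) ≤ |(k : ℝ)| := by
      exact_mod_cast Int.one_le_abs hk0
    rw [h4] at hu
    linarith

theorem ff_apply_zero (m : ℕ) (z : Fin (m + 2) → ℂ) :
    ff m z 0 = z 0 * exp (-3 * I * (z 0 * z 1)) := by
  simp [ff]

theorem ff_apply_one (m : ℕ) (z : Fin (m + 2) → ℂ) :
    ff m z 1 = z 1 * (exp (3 * I * (z 0 * z 1)) * E1 (z 0 * z 1)) := by
  simp [ff]

theorem ff_apply_ge (m : ℕ) (z : Fin (m + 2) → ℂ) {i : Fin (m + 2)} (h0 : i ≠ 0) (h1 : i ≠ 1) :
    ff m z i = z i := by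
  simp [ff, h0, h1]

/-- Proof. `exp (-3 I u) * exp (3 I u) = 1`. -/
theorem ff_prod (m : ℕ) (z : Fin (m + 2) → ℂ) :
    ff m z 0 * ff m z 1 = z 0 * z 1 * E1 (z 0 * z 1) := by
  rw [ff_apply_zero, ff_apply_one]
  have h : exp (-3 * I * (z 0 * z 1)) * exp (3 * I * (z 0 * z 1)) = 1 := by
    rw [← Complex.exp_add]
    rw [show -3 * I * (z 0 * z 1) + 3 * I * (z 0 * z 1) = 0 by ring, Complex.exp_zero]
  linear_combination (z 0 * z 1 * E1 (z 0 * z 1)) * h

/-- Proof. `differentiable_pi`. -/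
theorem ff_diff (m : ℕ) : Differentiable ℂ (ff m) := by
  refine differentiable_pi.2 fun i => ?_
  have d0 : Differentiable ℂ fun z : Fin (m + 2) → ℂ => z 0 := differentiable_apply 0
  have d1 : Differentiable ℂ fun z : Fin (m + 2) → ℂ => z 1 := differentiable_apply 1
  have du : Differentiable ℂ fun z : Fin (m + 2) → ℂ => z 0 * z 1 := d0.mul d1
  by_cases h0 : i = 0
  · subst h0
    simp only [ff_apply_zero]
    exact d0.mul (du.const_mul _).cexp
  · by_cases h1 : i = 1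
    · subst h1
      simp only [ff_apply_one]
      exact d1.mul ((du.const_mul _).cexp.mul (E1_diff.comp du))
    · simp only [ff_apply_ge m _ h0 h1]
      exact differentiable_apply i

theorem ff_zero (m : ℕ) : ff m 0 = 0 := by
  funext i
  by_cases h0 : i = 0
  · subst h0
    simp [ff_apply_zero]
  · by_cases h1 : i = 1
    · subst h1
      simp [ff_apply_one]
    · rw [ff_apply_ge m _ h0 h1]

/-- Proof. `hasFDerivAt_pi`: the coordinate `i` has the derivative `proj i` at `0`: `z₀ * g z` and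
`z₁ * g z` with `g 0 = 1` (product rule at a point where the first factor vanishes). -/
theorem ff_fderiv_zero (m : ℕ) :
    fderiv ℂ (ff m) 0 = ContinuousLinearMap.id ℂ (Fin (m + 2) → ℂ) := by
  apply HasFDerivAt.fderiv
  rw [hasFDerivAt_pi']
  intro i
  rw [ContinuousLinearMap.comp_id]
  have d0 : Differentiable ℂ fun z : Fin (m + 2) → ℂ => z 0 := differentiable_apply 0
  have d1 : Differentiable ℂ fun z : Fin (m + 2) → ℂ => z 1 := differentiable_apply 1
  have du : Differentiable ℂ fun z : Fin (m + 2) → ℂ => z 0 * z 1 := d0.mul d1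
  have key : ∀ (j : Fin (m + 2)) (g : (Fin (m + 2) → ℂ) → ℂ), DifferentiableAt ℂ g 0 →
      g 0 = 1 → HasFDerivAt (fun z : Fin (m + 2) → ℂ => z j * g z)
        (ContinuousLinearMap.proj (R := ℂ) (φ := fun _ : Fin (m + 2) => ℂ) j) 0 := by
    intro j g hg hg1
    have h1 : HasFDerivAt (fun z : Fin (m + 2) → ℂ => z j)
        (ContinuousLinearMap.proj (R := ℂ) (φ := fun _ : Fin (m + 2) => ℂ) j) 0 :=
      hasFDerivAt_apply j 0
    have e : ((0 : ℂ) • fderiv ℂ g 0 +
        g 0 • (ContinuousLinearMap.proj (R := ℂ) (φ := fun _ : Fin (m + 2) => ℂ) j) :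
          (Fin (m + 2) → ℂ) →L[ℂ] ℂ) =
        ContinuousLinearMap.proj (R := ℂ) (φ := fun _ : Fin (m + 2) => ℂ) j := by
      refine ContinuousLinearMap.ext fun v => ?_
      change (0 : ℂ) * (fderiv ℂ g 0 v) + g 0 * v j = v j
      rw [hg1]
      ring
    have h2 : HasFDerivAt (fun z : Fin (m + 2) → ℂ => z j * g z)
        ((0 : ℂ) • fderiv ℂ g 0 +
          g 0 • (ContinuousLinearMap.proj (R := ℂ) (φ := fun _ : Fin (m + 2) => ℂ) j)) 0 :=
      h1.mul hg.hasFDerivAt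
    rw [e] at h2
    exact h2
  by_cases h0 : i = 0
  · subst h0
    simp only [ff_apply_zero]
    refine key 0 _ ((du.const_mul _).cexp 0) ?_
    simp
  · by_cases h1 : i = 1
    · subst h1
      simp only [ff_apply_one]
      refine key 1 _ (((du.const_mul _).cexp.mul (E1_diff.comp du)) 0) ?_
      simp [E1_zero]
    · simp only [ff_apply_ge m _ h0 h1]
      exact hasFDerivAt_apply i 0

/-- For `z` in the unit ball: `‖z 0‖ < 1`, `‖z 1‖ < 1`, `‖z 0 * z 1‖ < 1 / 2`. -/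
theorem uball_bd (m : ℕ) {z : Fin (m + 2) → ℂ} (hz : z ∈ uball (m + 2)) :
    ‖z 0‖ < 1 ∧ ‖z 1‖ < 1 ∧ ‖z 0 * z 1‖ < 1 / 2 := by
  classical
  have h1 : ‖z 0‖ ^ 2 + ‖z 1‖ ^ 2 < 1 := by
    refine lt_of_le_of_lt ?_ hz
    rw [← Finset.sum_pair (f := fun i => ‖z i‖ ^ 2) (show (0 : Fin (m + 2)) ≠ 1 from
      Fin.zero_ne_one)]
    exact Finset.sum_le_sum_of_subset_of_nonneg (Finset.subset_univ _) fun i _ _ => sq_nonneg _
  have a0 := norm_nonneg (z 0)
  have a1 := norm_nonneg (z 1)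
  refine ⟨by nlinarith, by nlinarith, ?_⟩
  rw [norm_mul]
  nlinarith [sq_nonneg (‖z 0‖ - ‖z 1‖)]

private theorem fbr1_aux {a b a' b' : ℂ} (h1 : ‖a'‖ < 1) (h2 : ‖b‖ < 1)
    (h3 : ‖a' * b'‖ < 1 / 2)
    (h0 : a * exp (-3 * I * (a * b)) = a' * exp (-3 * I * (a' * b')))
    (hu : a * b - a' * b' = 2 / 3 * I) : False := by
  have e1 : a' = a * exp 2 := by
    have e2 : exp (-3 * I * (a * b)) = exp (-3 * I * (a' * b')) * exp 2 := by
      rw [← Complex.exp_add]
      congr 1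
      have hI : I * I = -1 := Complex.I_mul_I
      linear_combination (-3 * I) * hu - 2 * hI
    rw [e2] at h0
    have e3 : a * exp 2 * exp (-3 * I * (a' * b')) = a' * exp (-3 * I * (a' * b')) := by
      rw [← h0]
      ring
    exact (mul_right_cancel₀ (Complex.exp_ne_zero _) e3).symm
  have e4 : ‖a'‖ = ‖a‖ * Real.exp 2 := by
    rw [e1, norm_mul, Complex.norm_exp]
    norm_num
  have e5 : (6 : ℝ) < Real.exp 2 := by
    have h := Real.exp_one_gt_d9
    have h' : Real.exp 2 = Real.exp 1 * Real.exp 1 := by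
      rw [← Real.exp_add]
      norm_num
    rw [h']
    nlinarith
  have na := norm_nonneg a
  have nb := norm_nonneg b
  have e6 : ‖a‖ < 1 / 6 := by
    by_contra hcon
    push Not at hcon
    nlinarith
  have e7 : ‖a * b‖ < 1 / 6 := by
    rw [norm_mul]
    nlinarith
  have e8 : ‖a * b - a' * b'‖ = 2 / 3 := by
    rw [hu, norm_mul, Complex.norm_I, mul_one]
    norm_num
  have e9 := norm_sub_le (a * b) (a' * b')
  linarith

/-- **Univalence.** Proof. Let `ff m z = ff m z'`, `u = z₀ z₁`, `u' = z'₀ z'₁`. The coordinates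
`i ≥ 2` agree. `u * E1 u = u' * E1 u'` (`ff_prod`), so `exp (3 π u) = exp (3 π u')` (`E1_mul`), so
`3 π u = 3 π u' + k (2 π I)`, `k : ℤ` (`Complex.exp_eq_exp_iff_exists_int`), that is
`u - u' = (2 k / 3) I`. `‖u‖, ‖u'‖ < 1/2` gives `|k| ≤ 1`.
`k = 0`: `u = u'`; the first coordinate gives `z₀ = z'₀` (`exp ≠ 0`), the second `z₁ = z'₁`
(`E1_ne`).
`k = 1`: the first coordinate: `z'₀ = z₀ * exp (-3 I (u - u')) = z₀ * exp 2`, so
`‖z₀‖ < exp (-2) < 1/6` (`exp 1 > 2.7`), `‖u‖ ≤ ‖z₀‖ < 1/6`, `‖u - u'‖ < 1/6 + 1/2 = 2/3`,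
contradiction.
`k = -1`: exchange `z` and `z'`. -/
theorem ff_injOn (m : ℕ) : InjOn (ff m) (uball (m + 2)) := by
  intro z hz z' hz' h
  obtain ⟨b0, b1, b2⟩ := uball_bd m hz
  obtain ⟨b0', b1', b2'⟩ := uball_bd m hz'
  have h0 : z 0 * exp (-3 * I * (z 0 * z 1)) = z' 0 * exp (-3 * I * (z' 0 * z' 1)) := by
    rw [← ff_apply_zero, ← ff_apply_zero, h]
  have h1 : z 1 * (exp (3 * I * (z 0 * z 1)) * E1 (z 0 * z 1)) =
      z' 1 * (exp (3 * I * (z' 0 * z' 1)) * E1 (z' 0 * z' 1)) := by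
    rw [← ff_apply_one, ← ff_apply_one, h]
  have h2 : z 0 * z 1 * E1 (z 0 * z 1) = z' 0 * z' 1 * E1 (z' 0 * z' 1) := by
    rw [← ff_prod, ← ff_prod, h]
  have h3 : exp (3 * Real.pi * (z 0 * z 1)) = exp (3 * Real.pi * (z' 0 * z' 1)) := by
    have e1 := E1_mul (z 0 * z 1)
    have e2 := E1_mul (z' 0 * z' 1)
    linear_combination (3 * Real.pi : ℂ) * h2 - e1 + e2
  obtain ⟨k, hk⟩ := Complex.exp_eq_exp_iff_exists_int.1 h3
  have hpi : (Real.pi : ℂ) ≠ 0 := by exact_mod_cast Real.pi_ne_zero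
  have hu : z 0 * z 1 - z' 0 * z' 1 = (k : ℂ) * (2 / 3 * I) := by
    have h4 : (3 * Real.pi : ℂ) * (z 0 * z 1 - z' 0 * z' 1) =
        3 * Real.pi * ((k : ℂ) * (2 / 3 * I)) := by
      linear_combination hk
    exact mul_left_cancel₀ (mul_ne_zero three_ne_zero hpi) h4
  have hn : ‖z 0 * z 1 - z' 0 * z' 1‖ = |(k : ℝ)| * (2 / 3) := by
    rw [hu, norm_mul, norm_mul, Complex.norm_I, mul_one, Complex.norm_intCast]
    norm_num
  have hlt : |(k : ℝ)| * (2 / 3) < 1 := by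
    rw [← hn]
    have := norm_sub_le (z 0 * z 1) (z' 0 * z' 1)
    linarith
  have hk1 : |k| < 2 := by
    have : |(k : ℝ)| < 2 := by linarith
    exact_mod_cast this
  have hk2 : k = 1 ∨ k = 0 ∨ k = -1 := by
    rw [abs_lt] at hk1
    omega
  rcases hk2 with rfl | rfl | rfl
  · exact (fbr1_aux b0' b1 b2' h0 (by rw [hu]; push_cast; ring)).elim
  · rw [Int.cast_zero, zero_mul, sub_eq_zero] at hu
    rw [← hu] at h0 h1
    have e0 : z 0 = z' 0 := mul_right_cancel₀ (Complex.exp_ne_zero _) h0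
    have e1 : z 1 = z' 1 := mul_right_cancel₀
      (mul_ne_zero (Complex.exp_ne_zero _) (E1_ne (by linarith))) h1
    funext i
    by_cases hi0 : i = 0
    · rw [hi0, e0]
    · by_cases hi1 : i = 1
      · rw [hi1, e1]
      · have := congrFun h i
        rwa [ff_apply_ge m _ hi0 hi1, ff_apply_ge m _ hi0 hi1] at this
  · exact (fbr1_aux b0 b1' b2 h0.symm (by
      have : z' 0 * z' 1 - z 0 * z 1 = -(z 0 * z 1 - z' 0 * z' 1) := by ring
      rw [this, hu]; push_cast; ring)).elim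

end Pool.Agent.FBR
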