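import Pool.Agent.FBR.Gap
import Pool.Agent.FBR.Ann
import Pool.Agent.FBR.Laur
import Pool.Agent.FBR.Lift
import Pool.Agent.FBR.Jac

/-!
# The image of the univalent map is not Runge (package FBR10)
-/

set_option autoImplicit false

namespace Pool.Agent.FBR

open Filter Topology Set Complex

/-- **The inverse is holomorphic.** Proof. Let `G = Function.invFunOn (ff m) (uball (m + 2))`:
`G (ff m w) = w` (`ff_injOn`). At `y = ff m w`: `ff_strict` and the inverse function theorem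
(`HasStrictFDerivAt.to_localInverse`, `HasStrictFDerivAt.eventually_right_inverse`): the local
inverse `L` is differentiable at `y`, `L y = w`, `ff m (L y') = y'` for `y'` near `y`, and
`L y' ∈ uball (m + 2)` (open) for `y'` near `y`, so `G y' = L y'` near `y`
(`HasFDerivAt.congr_of_eventuallyEq`). -/
theorem inv_diff (m : ℕ) : ∃ G : (Fin (m + 2) → ℂ) → (Fin (m + 2) → ℂ),
    DifferentiableOn ℂ G (ff m '' uball (m + 2)) ∧ ∀ w ∈ uball (m + 2), G (ff m w) = w := by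
  have hG : ∀ w ∈ uball (m + 2),
      Function.invFunOn (ff m) (uball (m + 2)) (ff m w) = w := fun w hw =>
    (ff_injOn m).leftInvOn_invFunOn hw
  have hopen : IsOpen (uball (m + 2)) :=
    isOpen_lt (continuous_finsetSum _ fun i _ => ((continuous_apply i).norm.pow 2))
      continuous_const
  refine ⟨_, ?_, hG⟩
  rintro _ ⟨w, hw, rfl⟩
  obtain ⟨A, hA⟩ := ff_strict m hw
  have h1 : ∀ᶠ x in 𝓝 w, Function.invFunOn (ff m) (uball (m + 2)) (ff m x) = x := by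
    filter_upwards [hopen.mem_nhds hw] with x hx using hG x hx
  exact (hA.to_local_left_inverse h1).differentiableAt.differentiableWithinAt

/-- **Not Runge.** Proof. Assume the contrary. The compact set
`K = {io m z | ‖z‖ = Ra ∨ ‖z‖ = Rb}` is contained in the image of the unit ball (`circ`;
compactness: `isCompact_circles`, `io_diff`). Let `w z` be the point of `circ` for `z` on
the circles, so `w z ∈ cball (m + 2) ρ`, `ρ = √(2/3) < 1`, and `w z ∈ uball (m + 2)`,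
`G (io m z) = w z` with `G` from `inv_diff`. Given `ε > 0`, the Runge property for the coordinates
of `G`, `K` and `ε` gives polynomials `p i`; `T z i = MvPolynomial.eval (io m z) (p i)` is
holomorphic off `0` (`eval_io_diff`), so `DiffContOnCl` on the annulus, and `‖T z - w z‖ ≤ ε` on
the circles. `annulus_ext` with `a = Ra`, `b = Rb`, `r = 1` (`oball (m + 2) 1 = uball (m + 2)`),
`Ψ = ff m`, `j = io m` at the point `1 / √3` (`mid_mem`) gives `x ∈ cball (m + 2) ρ` with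
`ff m x = io m (1 / √3)`, and `x ∈ uball (m + 2)`: contradiction to `gap`. -/
theorem not_runge (m : ℕ) :
    ¬ (∀ g : (Fin (m + 2) → ℂ) → ℂ,
        DifferentiableOn ℂ g (ff m '' {z : Fin (m + 2) → ℂ | ∑ i, ‖z i‖ ^ 2 < 1}) →
        ∀ K : Set (Fin (m + 2) → ℂ), K ⊆ ff m '' {z : Fin (m + 2) → ℂ | ∑ i, ‖z i‖ ^ 2 < 1} →
          IsCompact K →
          ∀ ε : ℝ, 0 < ε →
            ∃ p : MvPolynomial (Fin (m + 2)) ℂ, ∀ z ∈ K, ‖g z - MvPolynomial.eval z p‖ < ε) := by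
  intro hR
  obtain ⟨G, hGd, hG⟩ := inv_diff m
  have hmid := mid_mem
  have hRa := Ra_pos
  have hRab := Ra_lt_Rb
  obtain ⟨ρ, hρdef⟩ : ∃ ρ : ℝ, ρ = Real.sqrt (2 / 3) := ⟨_, rfl⟩
  have hρ0 : 0 ≤ ρ := by
    rw [hρdef]
    exact Real.sqrt_nonneg _
  have hρ2 : ρ ^ 2 = 2 / 3 := by
    rw [hρdef]
    exact Real.sq_sqrt (by norm_num)
  have hρ1 : ρ < 1 := by nlinarith
  have hcirc : ∀ z : ℂ, ∃ w : Fin (m + 2) → ℂ, (‖z‖ = Ra ∨ ‖z‖ = Rb) →
      (∑ i, ‖w i‖ ^ 2 = 2 / 3 ∧ ff m w = io m z) := by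
    intro z
    by_cases hz : ‖z‖ = Ra ∨ ‖z‖ = Rb
    · obtain ⟨w, hw⟩ := circ m hz
      exact ⟨w, fun _ => hw⟩
    · exact ⟨0, fun h => absurd h hz⟩
  choose w hw using hcirc
  have hwc : ∀ z : ℂ, (‖z‖ = Ra ∨ ‖z‖ = Rb) → w z ∈ cball (m + 2) ρ := fun z hz => by
    change ∑ i, ‖w z i‖ ^ 2 ≤ ρ ^ 2
    rw [(hw z hz).1, hρ2]
  have hwu : ∀ z : ℂ, (‖z‖ = Ra ∨ ‖z‖ = Rb) → w z ∈ uball (m + 2) := fun z hz => by
    change ∑ i, ‖w z i‖ ^ 2 < 1
    rw [(hw z hz).1]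
    norm_num
  have hGw : ∀ z : ℂ, (‖z‖ = Ra ∨ ‖z‖ = Rb) → G (io m z) = w z := fun z hz => by
    rw [← (hw z hz).2]
    exact hG _ (hwu z hz)
  have hK1 : io m '' {z : ℂ | ‖z‖ = Ra ∨ ‖z‖ = Rb} ⊆
      ff m '' {z : Fin (m + 2) → ℂ | ∑ i, ‖z i‖ ^ 2 < 1} := by
    rintro _ ⟨z, hz, rfl⟩
    exact ⟨w z, hwu z hz, (hw z hz).2⟩
  have hsub : {z : ℂ | ‖z‖ = Ra ∨ ‖z‖ = Rb} ⊆ {z : ℂ | z ≠ 0} := by
    rintro z hz rfl
    have h1 : ‖(0 : ℂ)‖ = Ra ∨ ‖(0 : ℂ)‖ = Rb := hz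
    rw [norm_zero] at h1
    rcases h1 with h1 | h1 <;> linarith
  have hK2 : IsCompact (io m '' {z : ℂ | ‖z‖ = Ra ∨ ‖z‖ = Rb}) :=
    (isCompact_circles Ra Rb).image_of_continuousOn ((io_diff m).continuousOn.mono hsub)
  have happ : ∀ ε : ℝ, 0 < ε → ∃ T : ℂ → (Fin (m + 2) → ℂ), DiffContOnCl ℂ T (ann Ra Rb) ∧
      ∀ z : ℂ, ‖z‖ = Ra ∨ ‖z‖ = Rb → ‖T z - w z‖ ≤ ε := by
    intro ε hε
    have h1 : ∀ i : Fin (m + 2), ∃ p : MvPolynomial (Fin (m + 2)) ℂ,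
        ∀ z ∈ io m '' {z : ℂ | ‖z‖ = Ra ∨ ‖z‖ = Rb},
          ‖(fun y => G y i) z - MvPolynomial.eval z p‖ < ε := fun i =>
      hR (fun y => G y i) (differentiableOn_pi.1 hGd i) _ hK1 hK2 ε hε
    choose p hp using h1
    refine ⟨fun z i => MvPolynomial.eval (io m z) (p i), ?_, ?_⟩
    · have h2 : DifferentiableOn ℂ
          (fun (z : ℂ) (i : Fin (m + 2)) => MvPolynomial.eval (io m z) (p i)) {z | z ≠ 0} :=
        differentiableOn_pi.2 fun i => eval_io_diff m (p i)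
      refine DifferentiableOn.diffContOnCl (h2.mono ?_)
      have h3 : closure (ann Ra Rb) ⊆ {z : ℂ | Ra ≤ ‖z‖} :=
        closure_minimal (fun z hz => hz.1.le) (isClosed_le continuous_const continuous_norm)
      rintro z hz rfl
      have h4 : Ra ≤ ‖(0 : ℂ)‖ := h3 hz
      rw [norm_zero] at h4
      linarith
    · intro z hz
      rw [pi_norm_le_iff_of_nonneg hε.le]
      intro i
      have h2 := (hp i (io m z) ⟨z, hz, rfl⟩).le
      change ‖G (io m z) i - MvPolynomial.eval (io m z) (p i)‖ ≤ ε at h2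
      rw [hGw z hz, norm_sub_rev] at h2
      exact h2
  have hs : ‖((1 / Real.sqrt 3 : ℝ) : ℂ)‖ = 1 / Real.sqrt 3 := by
    rw [Complex.norm_real, Real.norm_of_nonneg (by positivity)]
  obtain ⟨x, hx, hxe⟩ := annulus_ext hRa hRab hρ0 hρ1 (ff_diff m).differentiableOn (io_diff m)
    (fun z hz => ⟨hwc z hz, (hw z hz).2⟩) happ (z := ((1 / Real.sqrt 3 : ℝ) : ℂ))
    (by rw [hs]; exact hmid.1) (by rw [hs]; exact hmid.2)
  have hxu : x ∈ uball (m + 2) := by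
    have h1 : ∑ i, ‖x i‖ ^ 2 ≤ ρ ^ 2 := hx
    change ∑ i, ‖x i‖ ^ 2 < 1
    rw [hρ2] at h1
    linarith
  exact gap m hxu hxe

end Pool.Agent.FBR
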